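import Pool.Agent.P.MP_a2f83a_an.SdSmooth

set_option autoImplicit false

namespace Pool.Agent.P.MP_a2f83a_an.Sd

open MeasureTheory Metric Set Filter Topology MvPolynomial InnerProductSpace Laplacian Asymptotics
open scoped ContDiff

theorem sm_le {n : ℕ} {U : E n → ℝ} (hU : ContDiff ℝ ∞ U) (k : ℕ) : ContDiff ℝ k U :=
  hU.of_le (by exact_mod_cast le_top)

theorem pd_smooth {n : ℕ} (i : Fin n) {U : E n → ℝ} (hU : ContDiff ℝ ∞ U) :
    ContDiff ℝ ∞ (pd i U) :=
  (hU.fderiv_right (m := ∞) (by simp)).clm_apply contDiff_const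

theorem pd_comm {n : ℕ} (i j : Fin n) {f : E n → ℝ} (hf : ContDiff ℝ 2 f) :
    pd i (pd j f) = pd j (pd i f) := by
  funext x
  have hd : DifferentiableAt ℝ (fderiv ℝ f) x :=
    (hf.fderiv_right (m := 1) (by norm_num)).differentiable one_ne_zero x
  unfold pd
  rw [fderiv_clm_apply hd (differentiableAt_const _), fderiv_clm_apply hd (differentiableAt_const _)]
  simpa using (hf.contDiffAt.isSymmSndFDerivAt (by simp)).eq _ _

theorem lap_pd {n : ℕ} (i : Fin n) {U : E n → ℝ} (hU : ContDiff ℝ ∞ U) {ρ : ℝ}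
    (hΔ : ∀ x ∈ ball (0 : E n) ρ, Δ U x = 0) : ∀ x ∈ ball (0 : E n) ρ, Δ (pd i U) x = 0 := by
  intro x hx
  rw [lap_eq_pd (sm_le (pd_smooth i hU) 2)]
  have e1 : ∀ j, pd j (pd j (pd i U)) x = pd i (pd j (pd j U)) x := fun j => by
    rw [pd_comm j i (sm_le hU 2), pd_comm j i (sm_le (pd_smooth j hU) 2)]
  have e2 : (fun y => ∑ j, pd j (pd j U) y) =ᶠ[𝓝 x] fun _ => 0 := by
    filter_upwards [isOpen_ball.mem_nhds hx] with y hy
    rw [← lap_eq_pd (sm_le hU 2), hΔ y hy]
  have e3 := e2.fderiv_eq (𝕜 := ℝ)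
  rw [fderiv_fun_sum fun j _ =>
    (sm_le (pd_smooth j (pd_smooth j hU)) 1).differentiable (by simp) x] at e3
  have e4 := congrArg (fun L : E n →L[ℝ] ℝ => L (EuclideanSpace.single i (1 : ℝ))) e3
  simp only [e1]
  simpa [pd] using e4

theorem lap_mul {n : ℕ} {f g : E n → ℝ} (hf : ContDiff ℝ 2 f) (hg : ContDiff ℝ 2 g) (x : E n) :
    Δ (fun y => f y * g y) x = Δ f x * g x + 2 * ∑ j, pd j f x * pd j g x + f x * Δ g x := by
  have df := hf.differentiable two_ne_zero
  have dg := hg.differentiable two_ne_zero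
  rw [lap_eq_pd (hf.mul hg), lap_eq_pd hf, lap_eq_pd hg, Finset.sum_mul, Finset.mul_sum,
    Finset.mul_sum, ← Finset.sum_add_distrib, ← Finset.sum_add_distrib]
  refine Finset.sum_congr rfl fun j _ => ?_
  have d1 := (pd_contDiff j hf).differentiable one_ne_zero x
  have d2 := (pd_contDiff j hg).differentiable one_ne_zero x
  have e : pd j (fun y => f y * g y) = fun y => pd j f y * g y - (-f y) * pd j g y := by
    funext y; rw [pd_mul j (df y) (dg y)]; ring
  have e2 : pd j (fun y => -f y) x = -pd j f x := by simp [pd]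
  rw [e, pd_sub j (d1.fun_mul (dg x)) ((df x).fun_neg.fun_mul d2), pd_mul j d1 (dg x),
    pd_mul j (df x).fun_neg d2, e2]
  ring

/-- the radial averaging operator -/
noncomputable def KK {n : ℕ} {F : Type} [NormedAddCommGroup F] [NormedSpace ℝ F] (m : ℕ)
    (f : E n → F) (x : E n) : F := ∫ s in (0 : ℝ)..1, s ^ m • f (s ^ 2 • x)

theorem KK_deriv {n : ℕ} {F : Type} [NormedAddCommGroup F] [NormedSpace ℝ F] (m : ℕ)
    {f : E n → F} (hf : ContDiff ℝ 1 f) (x : E n) :
    HasFDerivAt (KK m f) (KK (m + 2) (fderiv ℝ f) x) x := by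
  have cf := hf.continuous
  have cD := hf.continuous_fderiv one_ne_zero
  have c1 : Continuous fun z : E n × ℝ => z.2 ^ (m + 2) • fderiv ℝ f (z.2 ^ 2 • z.1) := by
    fun_prop
  obtain ⟨M, hM⟩ := ((isCompact_closedBall x 1).prod
    (isCompact_uIcc (a := (0 : ℝ)) (b := 1))).exists_bound_of_continuousOn c1.continuousOn
  refine intervalIntegral.hasFDerivAt_integral_of_dominated_of_fderiv_le
    (F := fun (y : E n) (s : ℝ) => s ^ m • f (s ^ 2 • y))
    (F' := fun (y : E n) (s : ℝ) => s ^ (m + 2) • fderiv ℝ f (s ^ 2 • y))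
    (bound := fun _ => M) (closedBall_mem_nhds x one_pos)
    (Eventually.of_forall fun t => Continuous.aestronglyMeasurable (by fun_prop))
    (Continuous.intervalIntegrable (by fun_prop) _ _)
    (Continuous.aestronglyMeasurable (by fun_prop))
    (Eventually.of_forall fun s hs y hy => hM (y, s) ⟨hy, uIoc_subset_uIcc hs⟩)
    intervalIntegrable_const (Eventually.of_forall fun s _ y _ => ?_)
  have h1 := ((hf.differentiable one_ne_zero _).hasFDerivAt.comp y
    ((hasFDerivAt_id y).const_smul (s ^ 2))).const_smul (s ^ m)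
  refine h1.congr_fderiv ?_
  ext v
  simp [smul_smul, pow_add]

theorem KK_contDiff {n : ℕ} (k : ℕ) : ∀ (F : Type) [NormedAddCommGroup F] [NormedSpace ℝ F]
    (m : ℕ) (f : E n → F), ContDiff ℝ k f → ContDiff ℝ k (KK m f) := by
  induction k with
  | zero =>
    intro F _ _ m f hf
    have cf := hf.continuous
    simp only [Nat.cast_zero, contDiff_zero]
    exact intervalIntegral.continuous_parametric_intervalIntegral_of_continuous'
      (f := fun (y : E n) (s : ℝ) => s ^ m • f (s ^ 2 • y)) (by fun_prop) 0 1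
  | succ k ih =>
    intro F _ _ m f hf
    have h1 : ContDiff ℝ 1 f := hf.of_le (by exact_mod_cast Nat.le_add_left 1 k)
    rw [Nat.cast_succ, contDiff_succ_iff_fderiv]
    refine ⟨fun x => (KK_deriv m h1 x).differentiableAt, by simp, ?_⟩
    rw [show fderiv ℝ (KK m f) = KK (m + 2) (fderiv ℝ f) from
      funext fun x => (KK_deriv m h1 x).fderiv]
    exact ih _ _ _ (hf.fderiv_right (by norm_cast))

theorem pd_KK {n : ℕ} (i : Fin n) (m : ℕ) {f : E n → ℝ} (hf : ContDiff ℝ 1 f) :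
    pd i (KK m f) = KK (m + 2) (pd i f) := by
  funext x
  have cD := hf.continuous_fderiv one_ne_zero
  unfold pd
  rw [(KK_deriv m hf x).fderiv]
  unfold KK
  rw [ContinuousLinearMap.intervalIntegral_apply (Continuous.intervalIntegrable (by fun_prop) _ _)]
  rfl

theorem sq_smul_mem {n : ℕ} {ρ s : ℝ} {x : E n} (hx : x ∈ ball (0 : E n) ρ)
    (hs : s ∈ uIcc (0 : ℝ) 1) : s ^ 2 • x ∈ ball (0 : E n) ρ := by
  rw [uIcc_of_le zero_le_one] at hs
  rw [mem_ball_zero_iff] at hx ⊢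
  rw [norm_smul, Real.norm_of_nonneg (sq_nonneg s)]
  have h1 : s ^ 2 ≤ 1 := pow_le_one₀ hs.1 hs.2
  nlinarith [norm_nonneg x]

theorem lap_KK {n : ℕ} (m : ℕ) {f : E n → ℝ} (hf : ContDiff ℝ 2 f) {ρ : ℝ}
    (hΔ : ∀ x ∈ ball (0 : E n) ρ, Δ f x = 0) : ∀ x ∈ ball (0 : E n) ρ, Δ (KK m f) x = 0 := by
  intro x hx
  have c : ∀ j, Continuous (pd j (pd j f)) := fun j =>
    ((pd_contDiff j hf).continuous_fderiv one_ne_zero).clm_apply continuous_const
  rw [lap_eq_pd (KK_contDiff 2 _ m f hf)]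
  simp only [pd_KK _ _ (hf.of_le (by norm_num)), pd_KK _ _ (pd_contDiff _ hf), KK]
  rw [← intervalIntegral.integral_finsetSum fun j _ =>
    Continuous.intervalIntegrable (by have := c j; fun_prop) _ _,
    intervalIntegral.integral_congr (g := fun _ => 0), intervalIntegral.integral_zero]
  intro s hs
  simp only
  rw [← Finset.smul_sum, ← lap_eq_pd hf, hΔ _ (sq_smul_mem hx hs), smul_zero]

theorem KK_euler {m : ℕ} {f : E (m + 1) → ℝ} (hf : ContDiff ℝ 1 f) (x : E (m + 1)) :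
    (m + 1) * KK m f x + 2 * ∑ j, x j * pd j (KK m f) x = f x := by
  have cf := hf.continuous
  have cD := hf.continuous_fderiv one_ne_zero
  rw [← fderiv_self_eq, (KK_deriv m hf x).fderiv]
  unfold KK
  rw [ContinuousLinearMap.intervalIntegral_apply (Continuous.intervalIntegrable (by fun_prop) _ _),
    ← intervalIntegral.integral_const_mul, ← intervalIntegral.integral_const_mul,
    ← intervalIntegral.integral_add (Continuous.intervalIntegrable (by fun_prop) _ _)
      (Continuous.intervalIntegrable (by fun_prop) _ _),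
    intervalIntegral.integral_eq_sub_of_hasDerivAt (f := fun s : ℝ => s ^ (m + 1) * f (s ^ 2 • x))
      _ (Continuous.intervalIntegrable (by fun_prop) _ _)]
  · simp
  · intro s _
    have h1 : HasDerivAt (fun t : ℝ => t ^ 2 • x) ((2 * s) • x) s := by
      simpa using (hasDerivAt_pow 2 s).smul_const x
    have h2 := (hf.differentiable one_ne_zero _).hasFDerivAt.comp_hasDerivAt s h1
    refine ((hasDerivAt_pow (m + 1) s).fun_mul h2).congr_deriv ?_
    simp
    ring

/-- the polynomial vanishing on the sphere of radius one half -/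
noncomputable def Qs (n : ℕ) : MvPolynomial (Fin n) ℝ := ∑ j, X j ^ 2 - C (1 / 4)

theorem ev_Qs {n : ℕ} (x : E n) : ev (Qs n) x = ‖x‖ ^ 2 - 1 / 4 := by
  simp [ev, Qs, EuclideanSpace.norm_sq_eq]

theorem pderiv_Qs {n : ℕ} (i : Fin n) : pderiv i (Qs n) = C 2 * X i := by
  unfold Qs
  rw [map_sub, pderiv_C, sub_zero, map_sum, Finset.sum_eq_single i]
  · rw [pderiv_pow]
    simp only [pderiv_X_self, Nat.cast_ofNat, mul_one]
    rw [show (C 2 : MvPolynomial (Fin n) ℝ) = 2 from rfl]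
    simp
  · intro j _ hj
    rw [pderiv_pow, pderiv_X_of_ne hj, mul_zero]
  · simp

theorem ext_glob {m : ℕ} (i : Fin (m + 1)) {U : E (m + 1) → ℝ} (hU : ContDiff ℝ ∞ U) {ρ : ℝ}
    (hΔ : ∀ x ∈ ball (0 : E (m + 1)) ρ, Δ U x = 0) : HarmonicOnNhd
      (fun x => ev (X i) x * U x - ev (Qs (m + 1)) x * KK m (pd i U) x) (ball 0 ρ) := by
  have h2 := sm_le (pd_smooth i hU) 2
  have hK := KK_contDiff 2 _ m _ h2
  have a1 := (ev_contDiff (X i) 2).mul (sm_le hU 2)
  have a2 := (ev_contDiff (Qs (m + 1)) 2).mul hK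
  intro x hx
  refine ⟨(a1.sub a2).contDiffAt, ?_⟩
  filter_upwards [isOpen_ball.mem_nhds hx] with y hy
  refine (ContDiffAt.laplacian_sub a1.contDiffAt a2.contDiffAt).trans ?_
  rw [lap_mul (ev_contDiff _ 2) (sm_le hU 2), lap_mul (ev_contDiff _ 2) hK, hΔ y hy,
    lap_KK m h2 (lap_pd i hU hΔ) y hy, laplacian_ev, laplacian_ev,
    lap_low (isHomogeneous_X ℝ i) one_lt_two]
  have e1 : ev (lap (Qs (m + 1))) y = 2 * (m + 1) := by
    simp [lap, pderiv_Qs, ev]
    ring
  have e2 : ∑ j, pd j (ev (X i)) y * pd j U y = pd i U y := by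
    rw [Finset.sum_eq_single i]
    · simp [pd_ev, ev]
    · intro j _ hj
      simp [pd_ev, ev, pderiv_X_of_ne hj.symm]
    · simp
  have e3 : ∑ j, pd j (ev (Qs (m + 1))) y * pd j (KK m (pd i U)) y =
      2 * ∑ j, y j * pd j (KK m (pd i U)) y := by
    rw [Finset.mul_sum]
    refine Finset.sum_congr rfl fun j _ => ?_
    simp [pd_ev, pderiv_Qs, ev, mul_assoc]
  have e4 := KK_euler (h2.of_le (by norm_num)) y
  have e5 : ev (0 : MvPolynomial (Fin (m + 1)) ℝ) y = 0 := by simp [ev]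
  rw [e1, e2, e3, e5, Pi.zero_apply]
  linear_combination (-2) * e4

theorem harm_cut {m : ℕ} {u : E (m + 1) → ℝ} {R ρ : ℝ} (hu : HarmonicOnNhd u (ball 0 R))
    (h0 : 0 < ρ) (hR : ρ < R) : ∃ U : E (m + 1) → ℝ, ContDiff ℝ ∞ U ∧ HasCompactSupport U ∧
      (∀ x ∈ ball (0 : E (m + 1)) ρ, U =ᶠ[𝓝 x] u) ∧ ∀ x ∈ ball (0 : E (m + 1)) ρ, Δ U x = 0 := by
  obtain ⟨U, h1, h2, h3⟩ := cutoff h0 hR (harm_smooth hu ⊤)
  exact ⟨U, h1, h2, h3, fun y hy => lap_cut (hu y (ball_subset_ball hR.le hy)) (h3 y hy)⟩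

theorem ext_X {m : ℕ} (i : Fin (m + 1)) {v : E (m + 1) → ℝ} {R : ℝ}
    (hv : HarmonicOnNhd v (ball 0 R)) : HarmonicOnNhd
      (fun x => ev (X i) x * v x - ev (Qs (m + 1)) x * KK m (pd i v) x) (ball 0 R) := by
  intro x hx
  rw [mem_ball_zero_iff] at hx
  have hx0 := norm_nonneg x
  obtain ⟨U, h1, -, h3, h4⟩ := harm_cut hv (ρ := (‖x‖ + R) / 2) (by linarith) (by linarith)
  have hx' : x ∈ ball (0 : E (m + 1)) ((‖x‖ + R) / 2) := by
    rw [mem_ball_zero_iff]; linarith
  refine (harmonicAt_congr_nhds ?_).1 (ext_glob i h1 h4 x hx')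
  filter_upwards [isOpen_ball.mem_nhds hx'] with y hy
  rw [(h3 y hy).eq_of_nhds]
  congr 2
  refine intervalIntegral.integral_congr fun s hs => ?_
  simp only [pd]
  rw [(h3 _ (sq_smul_mem hy hs)).fderiv_eq]

/-- a harmonic function times a polynomial has a harmonic extension from the sphere -/
theorem ext_poly {m : ℕ} {v : E (m + 1) → ℝ} {R : ℝ} (hv : HarmonicOnNhd v (ball 0 R))
    (g : MvPolynomial (Fin (m + 1)) ℝ) : ∃ u : E (m + 1) → ℝ, HarmonicOnNhd u (ball 0 R) ∧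
      ∀ x, ‖x‖ = 1 / 2 → u x = ev g x * v x := by
  induction g using MvPolynomial.induction_on with
  | C a => exact ⟨a • v, hv.const_smul, fun x _ => by simp [ev]⟩
  | add p q hp hq =>
    obtain ⟨u1, h1, h2⟩ := hp
    obtain ⟨u2, h3, h4⟩ := hq
    exact ⟨u1 + u2, h1.add h3, fun x hx => by simp [h2 x hx, h4 x hx, ev, add_mul]⟩
  | mul_X p j hp =>
    obtain ⟨u, h1, h2⟩ := hp
    refine ⟨_, ext_X j h1, fun x hx => ?_⟩
    rw [ev_Qs, hx, h2 x hx]
    simp [ev]
    ring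

end Pool.Agent.P.MP_a2f83a_an.Sd
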