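import Pool.Agent.P.MP_a2f83a_an.SdOrth

set_option autoImplicit false

namespace Pool.Agent.P.MP_a2f83a_an.Sd

open MeasureTheory Metric Set Filter Topology MvPolynomial InnerProductSpace Laplacian Asymptotics
open scoped Convolution

theorem cutoff {n : ℕ} {k : ℕ∞} {u : E n → ℝ} {R ρ : ℝ} (h0 : 0 < ρ) (hR : ρ < R)
    (hu : ∀ x ∈ ball (0 : E n) R, ContDiffAt ℝ k u x) :
    ∃ U : E n → ℝ, ContDiff ℝ k U ∧ HasCompactSupport U ∧
      ∀ x ∈ ball (0 : E n) ρ, U =ᶠ[𝓝 x] u := by
  let χ : ContDiffBump (0 : E n) := ⟨ρ, (ρ + R) / 2, h0, by linarith⟩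
  refine ⟨fun x => χ x * u x, contDiff_iff_contDiffAt.2 fun x => ?_,
    χ.hasCompactSupport.mul_right, fun x hx => ?_⟩
  · by_cases hx : x ∈ ball (0 : E n) R
    · exact χ.contDiffAt.mul (hu x hx)
    · have h1 : x ∉ tsupport χ := by
        rw [χ.tsupport_eq]
        intro h
        exact hx (closedBall_subset_ball (show (ρ + R) / 2 < R by linarith) h)
      refine (contDiffAt_const (c := (0 : ℝ))).congr_of_eventuallyEq ?_
      filter_upwards [notMem_tsupport_iff_eventuallyEq.1 h1] with y hy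
      simp [hy]
  · filter_upwards [χ.eventuallyEq_one_of_mem_ball hx] with y hy
    simp [hy]

theorem lap_cut {n : ℕ} {u U : E n → ℝ} {x : E n} (hu : HarmonicAt u x) (h : U =ᶠ[𝓝 x] u) :
    Δ U x = 0 := by
  rw [(laplacian_congr_nhds h).eq_of_nhds]
  exact hu.2.eq_of_nhds

/-- mean value property against a radial weight -/
theorem mean_value {m : ℕ} {U : E (m + 1) → ℝ} (hU : ContDiff ℝ 2 U) {c : E (m + 1)} {δ : ℝ}
    (hδ : 0 < δ) (hΔ : ∀ x ∈ ball c δ, Δ U x = 0) {w : ℝ → ℝ} (hw : Continuous w)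
    (hw0 : ∀ s, δ ^ 2 ≤ s → w s = 0) :
    ∫ x, U (c + x) * w (‖x‖ ^ 2) = U c * ∫ x : E (m + 1), w (‖x‖ ^ 2) := by
  have cU := hU.continuous
  have h1 : ContDiff ℝ 2 fun x => U (c + x) := hU.comp (contDiff_const.add contDiff_id)
  have hV : ContDiff ℝ 2 fun x => U (c + x) - U c := h1.sub contDiff_const
  have hΔ' : ∀ x ∈ ball (0 : E (m + 1)) δ, Δ (fun x => U (c + x) - U c) x = 0 := by
    intro x hx
    have e1 := ContDiffAt.laplacian_sub (h1.contDiffAt (x := x)) (contDiffAt_const (c := U c))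
    have e2 : Δ (fun x => U (c + x)) x = Δ U (c + x) := by
      simp only [laplacian_eq_iteratedFDeriv_stdOrthonormalBasis, iteratedFDeriv_comp_add_left]
    rw [e2, hΔ _ (by simpa using hx), laplacian_const] at e1
    exact e1.trans (by simp)
  have hO : (fun x => U (c + x) - U c) =O[𝓝 0] fun x : E (m + 1) => ‖x‖ ^ 1 := by
    have := (h1.differentiable two_ne_zero 0).hasFDerivAt.isBigO_sub
    simpa using this.norm_right
  have h2 := orth_homog hV hδ hΔ' hO 0 one_pos 1 (isHomogeneous_one _ _)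
  have h3 : ∫ x, (U (c + x) - U c) * w (‖x‖ ^ 2) = 0 := by
    rw [polar_weight hV.continuous hδ hw hw0]
    refine setIntegral_eq_zero_of_forall_eq_zero fun r hr => ?_
    rcases lt_or_ge r δ with h | h
    · have := h2 r ⟨hr, h⟩
      simp only [ev, map_one, mul_one] at this
      rw [this]; simp
    · rw [hw0 _ (by gcongr)]; simp
  have i1 : Integrable fun x : E (m + 1) => U (c + x) * w (‖x‖ ^ 2) :=
    Continuous.integrable_of_hasCompactSupport (by fun_prop) (supp_weight hδ hw0 _)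
  have i2 : Integrable fun x : E (m + 1) => U c * w (‖x‖ ^ 2) :=
    Continuous.integrable_of_hasCompactSupport (by fun_prop) (supp_weight hδ hw0 fun _ => U c)
  simp only [sub_mul] at h3
  rw [integral_sub i1 i2, integral_const_mul] at h3
  linarith

/-- a smooth radial weight -/
noncomputable def wt (δ s : ℝ) : ℝ := expNegInvGlue (δ ^ 2 - s)

theorem wt_zero (δ s : ℝ) (h : δ ^ 2 ≤ s) : wt δ s = 0 :=
  expNegInvGlue.zero_of_nonpos (by linarith)

theorem wt_smooth (δ : ℝ) (k : ℕ∞) : ContDiff ℝ k (wt δ) :=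
  expNegInvGlue.contDiff.comp (contDiff_const.sub contDiff_id)

theorem wt_int_pos {n : ℕ} {δ : ℝ} (hδ : 0 < δ) : 0 < ∫ x : E n, wt δ (‖x‖ ^ 2) := by
  have c := (wt_smooth δ 0).continuous
  refine Continuous.integral_pos_of_hasCompactSupport_nonneg_nonzero (x := 0) (by fun_prop) ?_
    (fun x => expNegInvGlue.nonneg _) ?_
  · simpa using supp_weight hδ (wt_zero δ) fun _ : E n => (1 : ℝ)
  · exact (expNegInvGlue.pos_of_pos (by simp; positivity)).ne'

/-- harmonic functions are smooth -/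
theorem harm_smooth {m : ℕ} {u : E (m + 1) → ℝ} {R : ℝ} (hu : HarmonicOnNhd u (ball 0 R))
    (k : ℕ∞) : ∀ x ∈ ball (0 : E (m + 1)) R, ContDiffAt ℝ k u x := by
  intro x hx
  rw [mem_ball_zero_iff] at hx
  have hx0 := norm_nonneg x
  obtain ⟨U, hU, -, hUu⟩ := cutoff (k := 2) (u := u) (ρ := (‖x‖ + R) / 2) (R := R)
    (by linarith) (by linarith) fun y hy => (hu y hy).1
  set δ := (R - ‖x‖) / 4 with hδ
  have hδ0 : 0 < δ := by linarith
  set g : E (m + 1) → ℝ := fun y => wt δ (‖y‖ ^ 2) with hg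
  have hgs : ContDiff ℝ k g := (wt_smooth δ k).comp (contDiff_norm_sq ℝ)
  have hgc : HasCompactSupport g := by
    simpa using supp_weight hδ0 (wt_zero δ) fun _ : E (m + 1) => (1 : ℝ)
  have hc := hgc.contDiff_convolution_right (ContinuousLinearMap.mul ℝ ℝ)
    (hU.continuous.locallyIntegrable (μ := volume)) hgs
  set K := ∫ y : E (m + 1), wt δ (‖y‖ ^ 2) with hK
  have hK0 : 0 < K := wt_int_pos hδ0
  refine (hc.div_const K).contDiffAt.congr_of_eventuallyEq ?_
  filter_upwards [ball_mem_nhds x hδ0] with c hc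
  have hb : ∀ y ∈ ball c δ, y ∈ ball (0 : E (m + 1)) ((‖x‖ + R) / 2) := by
    intro y hy
    rw [mem_ball_iff_norm] at hy hc
    rw [mem_ball_zero_iff]
    have : ‖y‖ ≤ ‖y - c‖ + ‖c - x‖ + ‖x‖ := by
      calc ‖y‖ = ‖(y - c) + (c - x) + x‖ := by congr 1; abel
        _ ≤ _ := norm_add₃_le
    linarith
  have h1 := mean_value hU hδ0 (c := c) (fun y hy => lap_cut
    (hu y (ball_subset_ball (by linarith) (hb y hy))) (hUu y (hb y hy)))
    (wt_smooth δ 0).continuous (wt_zero δ)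
  rw [convolution_mul, ← integral_add_left_eq_self _ c]
  simp only [hg, sub_add_cancel_left, norm_neg]
  rw [h1, (hUu c (hb c (mem_ball_self hδ0))).eq_of_nhds, ← hK, mul_div_cancel_right₀ _ hK0.ne']

theorem isBigO_of_iteratedFDeriv {n : ℕ} (N : ℕ) : ∀ (F : Type) [NormedAddCommGroup F]
    [NormedSpace ℝ F] (f : E n → F), ContDiffAt ℝ N f 0 →
      (∀ k < N, iteratedFDeriv ℝ k f 0 = 0) → f =O[𝓝 0] fun x => ‖x‖ ^ N := by
  induction N with
  | zero =>
    intro F _ _ f hf _
    simpa using hf.continuousAt.tendsto.isBigO_one ℝ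
  | succ N ih =>
    intro F _ _ f hf h0
    have f0 : f 0 = 0 := by
      have := h0 0 (Nat.succ_pos N)
      rw [← norm_eq_zero, norm_iteratedFDeriv_zero, norm_eq_zero] at this
      exact this
    have h1 := ih _ (fderiv ℝ f) (hf.fderiv_right (by norm_cast)) fun k hk => by
      rw [← norm_eq_zero, norm_iteratedFDeriv_fderiv, norm_eq_zero]
      exact h0 _ (by omega)
    obtain ⟨C, hC, hb⟩ := h1.exists_pos
    have hd : ∀ᶠ y in 𝓝 (0 : E n), DifferentiableAt ℝ f y :=
      (hf.eventually (by simp)).mono fun y hy => hy.differentiableAt (by simp)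
    obtain ⟨δ, hδ, hb⟩ := Metric.eventually_nhds_iff_ball.1 (hb.bound.and hd)
    refine IsBigO.of_bound C ?_
    filter_upwards [ball_mem_nhds (0 : E n) hδ] with x hx
    have hs : closedBall (0 : E n) ‖x‖ ⊆ ball 0 δ :=
      closedBall_subset_ball (mem_ball_zero_iff.1 hx)
    have := (convex_closedBall (0 : E n) ‖x‖).norm_image_sub_le_of_norm_fderiv_le
      (C := C * ‖x‖ ^ N) (fun y hy => (hb y (hs hy)).2) (fun y hy => by
        refine (hb y (hs hy)).1.trans ?_
        rw [Real.norm_of_nonneg (by positivity)]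
        have := mem_closedBall_zero_iff.1 hy
        gcongr) (mem_closedBall_self (norm_nonneg x)) (mem_closedBall_zero_iff.2 le_rfl)
    rw [f0, sub_zero, sub_zero] at this
    rw [Real.norm_of_nonneg (by positivity), pow_succ, ← mul_assoc]
    exact this

/-- orthogonality on the sphere of radius one half -/
theorem orth_of_order {m N : ℕ} {u : E (m + 1) → ℝ} (hu : HarmonicOnNhd u (ball 0 1))
    (h0 : ∀ k < N, iteratedFDeriv ℝ k u 0 = 0) {p : MvPolynomial (Fin (m + 1)) ℝ}
    (hp : p.totalDegree < N) :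
    ∫ ω : Sp (m + 1), u ((1 / 2 : ℝ) • (ω : E (m + 1))) *
      ev p ((1 / 2 : ℝ) • (ω : E (m + 1))) ∂sg (m + 1) = 0 := by
  obtain ⟨U, hU, -, hUu⟩ := cutoff (k := 2) (u := u) (ρ := 3 / 4) (R := 1)
    (by norm_num) (by norm_num) fun y hy => (hu y hy).1
  have hO := isBigO_of_iteratedFDeriv N ℝ u (harm_smooth hu N 0 (mem_ball_self one_pos)) h0
  have hO' : U =O[𝓝 0] fun x => ‖x‖ ^ N :=
    hO.congr' (hUu 0 (mem_ball_self (by norm_num))).symm EventuallyEq.rfl
  rw [← orth_deg hU (ρ := 3 / 4) (by norm_num) (fun y hy => lap_cut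
    (hu y (ball_subset_ball (by norm_num) hy)) (hUu y hy)) hO' hp (r := 1 / 2)
    ⟨by norm_num, by norm_num⟩]
  refine integral_congr_ae (Eventually.of_forall fun ω => ?_)
  simp only
  rw [(hUu _ (by rw [mem_ball_zero_iff, norm_smul, norm_sp]; norm_num)).eq_of_nhds]

end Pool.Agent.P.MP_a2f83a_an.Sd
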