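import Mathlib

set_option autoImplicit false

namespace Pool.Agent.P.MP_a2f83a_an

open MeasureTheory Measure

/-- inverse stereographic chart of the equatorial sphere -/
noncomputable def chart (m : ℕ) (σ : ℝ) (z : Fin m → ℝ) : EuclideanSpace ℝ (Fin (m + 2)) :=
  WithLp.toLp 2 (Fin.cons 0 (Fin.cons (σ * (1 - ∑ i, z i ^ 2) / (1 + ∑ i, z i ^ 2))
    (fun i => 2 * z i / (1 + ∑ i, z i ^ 2))))

lemma chart_contDiff (m : ℕ) (σ : ℝ) : ContDiff ℝ 1 (chart m σ) := by
  rw [contDiff_euclidean]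
  have hne : ∀ z : Fin m → ℝ, (1 + ∑ i, z i ^ 2) ≠ 0 := fun z => by positivity
  intro i
  refine Fin.cases ?_ (fun i => ?_) i
  · simp only [chart, Fin.cons_zero]; exact contDiff_const
  · refine Fin.cases ?_ (fun i => ?_) i
    · simp only [chart, Fin.cons_succ, Fin.cons_zero]
      exact ContDiff.div (by fun_prop) (by fun_prop) hne
    · simp only [chart, Fin.cons_succ]
      exact ContDiff.div (by fun_prop) (by fun_prop) hne

lemma chart_image_finite (m : ℕ) (σ : ℝ) :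
    μH[m] (chart m σ '' Metric.closedBall 0 1) < ⊤ := by
  obtain ⟨K, hK⟩ := ((chart_contDiff m σ).locallyLipschitz.locallyLipschitzOn
    (s := Metric.closedBall 0 1)).exists_lipschitzOnWith_of_compact (isCompact_closedBall 0 1)
  refine lt_of_le_of_lt (hK.hausdorffMeasure_image_le (Nat.cast_nonneg m)) ?_
  apply ENNReal.mul_lt_top
  · exact ENNReal.rpow_lt_top_of_nonneg (Nat.cast_nonneg m) ENNReal.coe_ne_top
  · have h := hausdorffMeasure_pi_real (ι := Fin m)
    rw [Fintype.card_fin] at h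
    rw [h]
    exact (isCompact_closedBall 0 1).measure_lt_top

/-- the equatorial unit sphere -/
def Eq0 (m : ℕ) : Set (EuclideanSpace ℝ (Fin (m + 2))) := {y | y 0 = 0 ∧ ‖y‖ = 1}

lemma Eq0_subset (m : ℕ) :
    Eq0 m ⊆ chart m 1 '' Metric.closedBall 0 1 ∪ chart m (-1) '' Metric.closedBall 0 1 := by
  rintro y ⟨h0, h1⟩
  have hs : y 1 ^ 2 + ∑ i : Fin m, y i.succ.succ ^ 2 = 1 := by
    have := EuclideanSpace.norm_sq_eq y
    rw [h1, Fin.sum_univ_succ, Fin.sum_univ_succ] at this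
    simp only [Real.norm_eq_abs, sq_abs, h0] at this
    simpa using this.symm
  have key : ∀ σ : ℝ, σ ^ 2 = 1 → 0 ≤ σ * y 1 → y ∈ chart m σ '' Metric.closedBall 0 1 := by
    intro σ hσ hy
    have hd : 0 < 1 + σ * y 1 := by linarith
    have hsum : ∑ i : Fin m, (y i.succ.succ / (1 + σ * y 1)) ^ 2 =
        (1 - σ * y 1) / (1 + σ * y 1) := by
      simp only [div_pow]
      rw [← Finset.sum_div, show ∑ i : Fin m, y i.succ.succ ^ 2 = 1 - y 1 ^ 2 by linarith]
      rw [div_eq_div_iff (pow_pos hd 2).ne' hd.ne']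
      linear_combination (y 1 ^ 2 * (1 + σ * y 1)) * hσ
    refine ⟨fun i => y i.succ.succ / (1 + σ * y 1), ?_, ?_⟩
    · rw [mem_closedBall_zero_iff, pi_norm_le_iff_of_nonneg zero_le_one]
      intro i
      have h2 : y i.succ.succ ^ 2 ≤ ∑ i : Fin m, y i.succ.succ ^ 2 :=
        Finset.single_le_sum (f := fun i : Fin m => y i.succ.succ ^ 2)
          (fun _ _ => sq_nonneg _) (Finset.mem_univ i)
      have h3 : |y i.succ.succ| ≤ 1 := by
        rw [← sq_le_one_iff_abs_le_one]; nlinarith [sq_nonneg (y 1)]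
      rw [Real.norm_eq_abs, abs_div, abs_of_pos hd, div_le_one hd]
      linarith
    · ext i
      refine Fin.cases ?_ (fun i => ?_) i
      · simp [chart, h0]
      · refine Fin.cases ?_ (fun i => ?_) i
        · simp only [chart, Fin.cons_succ, Fin.cons_zero, hsum]
          rw [Fin.succ_zero_eq_one]
          have hd' := hd.ne'
          field_simp
          linear_combination (2 * y 1) * hσ
        · simp only [chart, Fin.cons_succ, hsum]
          have hd' := hd.ne'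
          field_simp
          ring
  rcases le_total 0 (y 1) with h | h
  · exact Or.inl (key 1 (by norm_num) (by linarith))
  · exact Or.inr (key (-1) (by norm_num) (by linarith))

lemma Eq0_finite (m : ℕ) : μH[m] (Eq0 m) < ⊤ := by
  refine lt_of_le_of_lt (measure_mono (Eq0_subset m)) (lt_of_le_of_lt (measure_union_le _ _) ?_)
  exact ENNReal.add_lt_top.mpr ⟨chart_image_finite m 1, chart_image_finite m (-1)⟩

lemma latitude_le (m : ℕ) (hm : 1 ≤ m) (t : ℝ) (ht : t ∈ Set.Ioo (-1 : ℝ) 1) (r : NNReal)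
    (hr1 : r ≤ 1) (hr : 1 - t ≤ (r : ℝ) ^ 2) :
    μH[m] {x : EuclideanSpace ℝ (Fin (m + 2)) | ‖x‖ = 1 / 2 ∧ 2 * x 0 = t} ≤
      r * μH[m] (Eq0 m) := by
  have hpos : 0 < (1 - t ^ 2) / 4 := by nlinarith [ht.1, ht.2]
  set ρ : NNReal := ⟨√((1 - t ^ 2) / 4), Real.sqrt_nonneg _⟩ with hρ
  have hρ2 : (ρ : ℝ) ^ 2 = (1 - t ^ 2) / 4 := Real.sq_sqrt hpos.le
  have hρp : (0 : ℝ) < ρ := Real.sqrt_pos.mpr hpos
  have hρr : ρ ≤ r := by
    rw [← NNReal.coe_le_coe]
    apply le_of_sq_le_sq _ r.2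
    apply le_of_le_of_eq _ (rfl : (r : ℝ) ^ 2 = (r : ℝ) ^ 2)
    rw [hρ2]; nlinarith [ht.1, ht.2]
  let e : EuclideanSpace ℝ (Fin (m + 2)) := EuclideanSpace.single 0 (t / 2)
  let F : EuclideanSpace ℝ (Fin (m + 2)) → EuclideanSpace ℝ (Fin (m + 2)) :=
    fun y => e + (ρ : ℝ) • y
  have hF : LipschitzWith ρ F := by
    apply LipschitzWith.of_dist_le_mul
    intro a b
    simp only [F, dist_add_left, dist_smul₀, NNReal.norm_eq, le_refl]
  have hsub : {x : EuclideanSpace ℝ (Fin (m + 2)) | ‖x‖ = 1 / 2 ∧ 2 * x 0 = t} ⊆ F '' Eq0 m := by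
    rintro x ⟨h1, h2⟩
    refine ⟨(ρ : ℝ)⁻¹ • (x - e), ⟨?_, ?_⟩, ?_⟩
    · simp [e, ← h2]
    · have h3 : ‖x - e‖ ^ 2 = (ρ : ℝ) ^ 2 := by
        rw [norm_sub_sq_real, h1, hρ2]
        simp only [e, EuclideanSpace.inner_single_right, PiLp.norm_single,
          Real.norm_eq_abs, sq_abs]
        simp only [conj_trivial]
        rw [← h2]; ring
      have h4 : ‖x - e‖ = ρ := by
        exact (sq_eq_sq₀ (norm_nonneg _) hρp.le).mp h3
      rw [norm_smul, h4, norm_inv, Real.norm_eq_abs, abs_of_pos hρp, inv_mul_cancel₀ hρp.ne']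
    · simp [F, smul_smul, mul_inv_cancel₀ hρp.ne']
  refine (measure_mono hsub).trans ((hF.hausdorffMeasure_image_le (Nat.cast_nonneg m) _).trans ?_)
  gcongr
  rw [ENNReal.rpow_natCast]
  calc (ρ : ENNReal) ^ m ≤ (ρ : ENNReal) ^ 1 :=
        pow_le_pow_of_le_one (zero_le) (by exact_mod_cast hρr.trans hr1) hm
    _ ≤ r := by simpa using hρr

end Pool.Agent.P.MP_a2f83a_an
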