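import Pool.Agent.P.MP_a2f83a_an.Zonal
import Pool.Agent.P.MP_a2f83a_an.Meas

set_option autoImplicit false

namespace Pool.Agent.P.MP_a2f83a_an

open Polynomial MeasureTheory Measure

theorem main_aux (m : ℕ) (hm : 1 ≤ m) (N : ℕ) (ε : ENNReal) (hε : 0 < ε) :
    ∃ u : EuclideanSpace ℝ (Fin (m + 2)) → ℝ,
      InnerProductSpace.HarmonicOnNhd u (Metric.ball 0 1) ∧
      (∃ x ∈ Metric.ball (0 : EuclideanSpace ℝ (Fin (m + 2))) 1, u x ≠ 0) ∧
      (∀ k < N, iteratedFDeriv ℝ k u 0 = 0) ∧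
      μH[m] {x : EuclideanSpace ℝ (Fin (m + 2)) | ‖x‖ = 1 / 2 ∧ u x = 0} < ε := by
  have hfin : (N : ENNReal) * μH[m] (Eq0 m) ≠ ⊤ :=
    ENNReal.mul_ne_top (ENNReal.natCast_ne_top N) (Eq0_finite m).ne
  obtain ⟨r₀, hr₀, hr₀'⟩ := ENNReal.exists_nnreal_pos_mul_lt hfin hε.ne'
  set r : NNReal := min r₀ 1 with hr
  have hr1 : r ≤ 1 := min_le_right _ _
  have hrp : 0 < r := lt_min hr₀ one_pos
  have hrp' : (0 : ℝ) < r := hrp
  have hr1' : (r : ℝ) ≤ 1 := hr1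
  let t : Fin N → ℝ := fun j => 1 - (r : ℝ) ^ 2 / ((j : ℕ) + 1)
  have htle : ∀ j, 1 - t j ≤ (r : ℝ) ^ 2 := by
    intro j
    simp only [t, sub_sub_cancel]
    apply div_le_self (by positivity)
    have : (0 : ℝ) ≤ (j : ℕ) := Nat.cast_nonneg _
    linarith
  have ht' : ∀ j, t j ∈ Set.Ioo (-1 : ℝ) 1 := by
    intro j
    constructor
    · have := htle j
      nlinarith
    · have : 0 < (r : ℝ) ^ 2 / ((j : ℕ) + 1) := by positivity
      simp only [t]; linarith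
  have ht : Function.Injective t := by
    intro i j hij
    simp only [t, sub_right_inj] at hij
    rw [div_eq_div_iff (by positivity) (by positivity)] at hij
    have h1 := mul_left_cancel₀ (pow_pos hrp' 2).ne' hij
    have h2 : ((j : ℕ) : ℝ) = (i : ℕ) := by linarith
    exact Fin.ext (by exact_mod_cast h2.symm)
  obtain ⟨g, hg, hgo⟩ := exists_orth m N t ht ht'
  set f : ℝ[X] := (∏ j, (X - C (t j))) * g with hf
  obtain ⟨p, hp1, hp2, hp3⟩ := good_of_orth m N (f.natDegree + 1) f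
    (lt_of_le_of_lt degree_le_natDegree (Nat.cast_lt.mpr (Nat.lt_succ_self _))) hgo
  have hzero : ∀ s ∈ Set.Icc (-1 : ℝ) 1, f.eval s = 0 → ∃ j, s = t j := by
    intro s hs h0
    rw [hf, eval_mul, eval_prod] at h0
    obtain ⟨j, -, hj⟩ := Finset.prod_eq_zero_iff.mp ((mul_eq_zero.mp h0).resolve_right (hg s hs).ne')
    refine ⟨j, ?_⟩
    simpa [sub_eq_zero] using hj
  refine ⟨ev p, fun x _ => harmonicAt_ev p hp1 x, ?_, hp2, ?_⟩
  · have hn : ‖(EuclideanSpace.single 0 (-(1 / 2)) : EuclideanSpace ℝ (Fin (m + 2)))‖ = 1 / 2 := by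
      simp
    refine ⟨EuclideanSpace.single 0 (-(1 / 2)), ?_, ?_⟩
    · rw [mem_ball_zero_iff, hn]; norm_num
    · rw [hp3 _ hn]
      intro h0
      have h1 : 2 * (EuclideanSpace.single 0 (-(1 / 2)) : EuclideanSpace ℝ (Fin (m + 2))) 0 = -1 := by
        simp
      rw [h1] at h0
      obtain ⟨j, hj⟩ := hzero (-1) ⟨le_rfl, by norm_num⟩ h0
      exact (ht' j).1.ne hj
  · have hsub : {x : EuclideanSpace ℝ (Fin (m + 2)) | ‖x‖ = 1 / 2 ∧ ev p x = 0} ⊆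
        ⋃ j, {x : EuclideanSpace ℝ (Fin (m + 2)) | ‖x‖ = 1 / 2 ∧ 2 * x 0 = t j} := by
      rintro x ⟨h1, h2⟩
      rw [hp3 x h1] at h2
      have h3 : |x 0| ≤ 1 / 2 := by
        rw [← h1, ← Real.norm_eq_abs]; exact PiLp.norm_apply_le x 0
      obtain ⟨j, hj⟩ := hzero _ ⟨by linarith [(abs_le.mp h3).1], by linarith [(abs_le.mp h3).2]⟩ h2
      exact Set.mem_iUnion.mpr ⟨j, h1, hj⟩
    refine lt_of_le_of_lt ((measure_mono hsub).trans (measure_iUnion_fintype_le _ _)) ?_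
    refine lt_of_le_of_lt (Finset.sum_le_sum fun j _ =>
      latitude_le m hm (t j) (ht' j) r hr1 (htle j)) ?_
    rw [Finset.sum_const, Finset.card_univ, Fintype.card_fin, nsmul_eq_mul, mul_left_comm]
    refine lt_of_le_of_lt ?_ hr₀'
    gcongr
    exact min_le_left _ _

theorem main (n : ℕ) (hn : 3 ≤ n) (N : ℕ) (ε : ENNReal) (hε : 0 < ε) :
    ∃ u : EuclideanSpace ℝ (Fin n) → ℝ,
      InnerProductSpace.HarmonicOnNhd u (Metric.ball 0 1) ∧
      (∃ x ∈ Metric.ball (0 : EuclideanSpace ℝ (Fin n)) 1, u x ≠ 0) ∧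
      (∀ k < N, iteratedFDeriv ℝ k u 0 = 0) ∧
      MeasureTheory.Measure.hausdorffMeasure ((n : ℝ) - 2)
        {x : EuclideanSpace ℝ (Fin n) | ‖x‖ = 1 / 2 ∧ u x = 0} < ε := by
  obtain ⟨m, rfl⟩ : ∃ m, n = m + 2 := ⟨n - 2, by omega⟩
  have : (((m + 2 : ℕ) : ℝ) - 2) = m := by push_cast; ring
  rw [this]
  exact main_aux m (by omega) N ε hε

end Pool.Agent.P.MP_a2f83a_an
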