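import Mathlib

set_option autoImplicit false

namespace Pool.Agent.P.MP_a2f83a_an

open Polynomial Real

/-- weighted mean of a continuous function of `cos θ` -/
noncomputable def II (m : ℕ) : ℝ[X] →ₗ[ℝ] ℝ where
  toFun f := ∫ θ in (0 : ℝ)..π, f.eval (cos θ) * sin θ ^ m
  map_add' f g := by
    rw [← intervalIntegral.integral_add]
    · simp [add_mul]
    · exact Continuous.intervalIntegrable (by fun_prop) _ _
    · exact Continuous.intervalIntegrable (by fun_prop) _ _
  map_smul' c f := by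
    simp only [eval_smul, smul_eq_mul, RingHom.id_apply, mul_assoc]
    rw [intervalIntegral.integral_const_mul]

lemma II_apply (m : ℕ) (f : ℝ[X]) :
    II m f = ∫ θ in (0 : ℝ)..π, f.eval (cos θ) * sin θ ^ m := rfl

lemma II_parts (m : ℕ) (g : ℝ[X]) :
    II m ((1 - X ^ 2) * derivative g - C ((m : ℝ) + 1) * X * g) = 0 := by
  rw [II_apply]
  have h : ∀ θ ∈ Set.uIcc (0 : ℝ) π, HasDerivAt (fun θ => -(g.eval (cos θ) * sin θ ^ (m + 1)))
      (((1 - X ^ 2) * derivative g - C ((m : ℝ) + 1) * X * g).eval (cos θ) * sin θ ^ m) θ := by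
    intro θ _
    have h1 : HasDerivAt (fun θ => g.eval (cos θ)) ((derivative g).eval (cos θ) * (-sin θ)) θ :=
      (g.hasDerivAt (cos θ)).comp θ (hasDerivAt_cos θ)
    have h2 : HasDerivAt (fun θ => sin θ ^ (m + 1)) (((m + 1 : ℕ) : ℝ) * sin θ ^ m * cos θ) θ := by
      have := (hasDerivAt_sin θ).fun_pow (m + 1)
      simp only [Nat.add_sub_cancel] at this
      exact this
    have h3 := (h1.fun_mul h2).fun_neg
    refine h3.congr_deriv ?_
    simp only [eval_sub, eval_mul, eval_one, eval_pow, eval_X, eval_C]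
    have := sin_sq_add_cos_sq θ
    push_cast
    rw [show (1 : ℝ) - cos θ ^ 2 = sin θ ^ 2 by linarith]
    ring
  rw [intervalIntegral.integral_eq_sub_of_hasDerivAt h
    (Continuous.intervalIntegrable (by fun_prop) _ _)]
  simp

/-- integral of a nonnegative continuous function that is positive somewhere -/
lemma int_pos (m : ℕ) (φ : ℝ → ℝ) (hφ : Continuous φ) (h0 : ∀ t, 0 ≤ φ t) (t₀ : ℝ)
    (ht₀ : t₀ ∈ Set.Ioo (-1 : ℝ) 1) (hp : 0 < φ t₀) :
    0 < ∫ θ in (0 : ℝ)..π, φ (cos θ) * sin θ ^ m := by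
  apply intervalIntegral.integral_pos pi_pos
  · exact Continuous.continuousOn (by fun_prop)
  · intro x hx
    exact mul_nonneg (h0 _) (pow_nonneg (sin_nonneg_of_nonneg_of_le_pi hx.1.le hx.2) _)
  · refine ⟨arccos t₀, ⟨arccos_nonneg _, arccos_le_pi _⟩, ?_⟩
    rw [cos_arccos ht₀.1.le ht₀.2.le]
    refine mul_pos hp (pow_pos ?_ _)
    rw [sin_arccos]
    apply sqrt_pos.mpr
    nlinarith [ht₀.1, ht₀.2]

lemma exists_eval_ne_zero (h : ℝ[X]) (hh : h ≠ 0) :
    ∃ t ∈ Set.Ioo (-1 : ℝ) 1, h.eval t ≠ 0 := by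
  by_contra hc
  push Not at hc
  apply hh
  apply Polynomial.eq_zero_of_infinite_isRoot
  exact (Set.Ioo_infinite (by norm_num : (-1 : ℝ) < 1)).mono fun t ht => hc t ht

lemma II_sq_pos (m : ℕ) (h : ℝ[X]) (hh : h ≠ 0) : 0 < II m (h * h) := by
  obtain ⟨t, ht, hne⟩ := exists_eval_ne_zero h hh
  rw [II_apply]
  have := int_pos m (fun t => (h * h).eval t) (by fun_prop)
    (fun t => by rw [eval_mul]; exact mul_self_nonneg _) t ht
    (by rw [eval_mul]; exact mul_self_pos.mpr hne)
  exact this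

/-- polynomials positive on `[-1,1]` -/
def PosP : Set ℝ[X] := {g | ∀ t ∈ Set.Icc (-1 : ℝ) 1, 0 < g.eval t}

lemma exists_pos_II (m : ℕ) (h : ℝ[X]) (t₀ : ℝ) (ht₀ : t₀ ∈ Set.Ioo (-1 : ℝ) 1)
    (hp : 0 < h.eval t₀) : ∃ g ∈ PosP, 0 < II m (h * g) := by
  set φ : ℝ → ℝ := fun t => max (h.eval t) 0 with hφ
  have hφc : Continuous φ := by fun_prop
  set J := ∫ θ in (0 : ℝ)..π, (h.eval (cos θ) * φ (cos θ)) * sin θ ^ m with hJ
  have hJp : 0 < J := by
    refine int_pos m (fun t => h.eval t * φ t) (by fun_prop) (fun t => ?_) t₀ ht₀ ?_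
    · rcases le_total (h.eval t) 0 with h1 | h1
      · simp [hφ, max_eq_right h1]
      · simp only [hφ, max_eq_left h1]; exact mul_self_nonneg _
    · simp only [hφ, max_eq_left hp.le]; exact mul_pos hp hp
  set B := ∫ θ in (0 : ℝ)..π, |h.eval (cos θ)| * sin θ ^ m with hB
  have hB0 : 0 < B := int_pos m (fun t => |h.eval t|) (by fun_prop) (fun t => abs_nonneg _) t₀ ht₀
    (abs_pos.mpr hp.ne')
  set η := J / (4 * B) with hη
  have hηp : 0 < η := by positivity
  obtain ⟨p, hp'⟩ := exists_polynomial_near_of_continuousOn (-1) 1 φ hφc.continuousOn η hηp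
  refine ⟨p + C η, ?_, ?_⟩
  · intro t ht
    have h1 := abs_lt.mp (hp' t ht)
    have h2 : 0 ≤ φ t := le_max_right _ _
    simp only [eval_add, eval_C]
    linarith [h1.1]
  · rw [II_apply]
    have hle : ∫ θ in (0 : ℝ)..π, ((h.eval (cos θ) * φ (cos θ)) * sin θ ^ m -
          2 * η * (|h.eval (cos θ)| * sin θ ^ m)) ≤
        ∫ θ in (0 : ℝ)..π, (h * (p + C η)).eval (cos θ) * sin θ ^ m := by
      apply intervalIntegral.integral_mono_on pi_pos.le
      · exact Continuous.intervalIntegrable (by fun_prop) _ _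
      · exact Continuous.intervalIntegrable (by fun_prop) _ _
      · intro θ hθ
        have hs : 0 ≤ sin θ ^ m := pow_nonneg (sin_nonneg_of_nonneg_of_le_pi hθ.1 hθ.2) _
        have h1 := abs_lt.mp (hp' (cos θ) ⟨neg_one_le_cos θ, cos_le_one θ⟩)
        have h2 : h.eval (cos θ) * φ (cos θ) - 2 * η * |h.eval (cos θ)| ≤
            (h * (p + C η)).eval (cos θ) := by
          simp only [eval_mul, eval_add, eval_C]
          rcases le_total (h.eval (cos θ)) 0 with h3 | h3
          · rw [abs_of_nonpos h3]; nlinarith [h1.1, h1.2]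
          · rw [abs_of_nonneg h3]; nlinarith [h1.1, h1.2]
        nlinarith [mul_le_mul_of_nonneg_right h2 hs]
    rw [intervalIntegral.integral_sub (Continuous.intervalIntegrable (by fun_prop) _ _)
      (Continuous.intervalIntegrable (by fun_prop) _ _), intervalIntegral.integral_const_mul,
      ← hJ, ← hB] at hle
    have : 2 * η * B = J / 2 := by rw [hη]; field_simp; ring
    linarith

lemma II_mul_of_degree_lt (m N : ℕ) (f p : ℝ[X]) (hp : p.degree < N)
    (hf : ∀ l < N, II m (f * X ^ l) = 0) : II m (f * p) = 0 := by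
  have hp' : p = ∑ i ∈ Finset.range N, C (p.coeff i) * X ^ i := by
    rcases eq_or_ne p 0 with h | h
    · subst h; simp
    · exact p.as_sum_range_C_mul_X_pow' ((natDegree_lt_iff_degree_lt h).mpr hp)
  rw [hp', Finset.mul_sum, map_sum]
  refine Finset.sum_eq_zero fun i hi => ?_
  rw [mul_left_comm, C_mul', map_smul, hf i (Finset.mem_range.mp hi), smul_zero]

/-- the main one-dimensional existence statement -/
theorem exists_orth (m N : ℕ) (t : Fin N → ℝ) (ht : Function.Injective t)
    (ht' : ∀ j, t j ∈ Set.Ioo (-1 : ℝ) 1) :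
    ∃ g ∈ PosP, ∀ l < N, II m ((∏ j, (X - C (t j))) * g * X ^ l) = 0 := by
  set q : ℝ[X] := ∏ j, (X - C (t j)) with hq
  have hq0 : q ≠ 0 := by
    rw [hq]; exact Finset.prod_ne_zero_iff.mpr fun j _ => X_sub_C_ne_zero _
  let T : ℝ[X] →ₗ[ℝ] (Fin N → ℝ) :=
    LinearMap.pi fun l : Fin N => (II m) ∘ₗ (LinearMap.mulLeft ℝ (q * X ^ (l : ℕ)))
  have hT : ∀ g (l : Fin N), T g l = II m (q * g * X ^ (l : ℕ)) := by
    intro g l
    simp only [T, LinearMap.pi_apply, LinearMap.comp_apply, LinearMap.mulLeft_apply]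
    congr 1; ring
  -- a functional on the target is integration against a polynomial of degree < N
  have hfun : ∀ ℓ : (Fin N → ℝ) →ₗ[ℝ] ℝ, ∃ p : ℝ[X], p.degree < N ∧
      (p = 0 → ℓ = 0) ∧ ∀ g, ℓ (T g) = II m (q * p * g) := by
    intro ℓ
    refine ⟨∑ l : Fin N, C (ℓ (Pi.single l 1)) * X ^ (l : ℕ), degree_sum_fin_lt _, ?_, ?_⟩
    · intro h0
      have hc : ∀ l : Fin N, ℓ (Pi.single l 1) = 0 := by
        intro l
        have := congrArg (fun p => coeff p l) h0
        simp only [finsetSum_coeff, coeff_C_mul, coeff_X_pow, coeff_zero] at this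
        rw [Finset.sum_eq_single l] at this
        · simpa using this
        · intro b _ hb
          have : ¬ (l : ℕ) = b := fun h => hb (Fin.ext h.symm)
          simp [this]
        · simp
      apply LinearMap.pi_ext'
      intro l
      ext
      simpa using hc l
    · intro g
      rw [LinearMap.pi_apply_eq_sum_univ ℓ (T g)]
      simp only [Finset.mul_sum, Finset.sum_mul, map_sum]
      refine Finset.sum_congr rfl fun l _ => ?_
      rw [hT]
      have : q * (C (ℓ (Pi.single l 1)) * X ^ (l : ℕ)) * g =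
          (ℓ (Pi.single l 1)) • (q * g * X ^ (l : ℕ)) := by
        rw [← C_mul']; ring
      rw [this, map_smul, smul_eq_mul, smul_eq_mul, mul_comm]
      congr 2
      funext j
      simp [Pi.single_apply, eq_comm]
  have hsurj : Function.Surjective T := by
    rw [← LinearMap.range_eq_top]
    by_contra hne
    obtain ⟨ℓ, hℓ0, hℓ⟩ := Submodule.exists_le_ker_of_lt_top _ (lt_top_iff_ne_top.mpr hne)
    obtain ⟨p, -, hp0, hp⟩ := hfun ℓ
    have h1 : ℓ (T (q * p)) = 0 := hℓ (LinearMap.mem_range_self T _)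
    rw [hp] at h1
    have h2 : q * p = 0 := by
      by_contra h
      exact (II_sq_pos m _ h).ne' h1
    exact hℓ0 (hp0 ((mul_eq_zero.mp h2).resolve_left hq0))
  obtain ⟨S, hS⟩ := T.exists_rightInverse_of_surjective (LinearMap.range_eq_top.mpr hsurj)
  have hS' : ∀ y, T (S y) = y := fun y => LinearMap.congr_fun hS y
  let R : ℝ[X] →ₗ[ℝ] C(Set.Icc (-1 : ℝ) 1, ℝ) :=
    (toContinuousMapOnAlgHom (Set.Icc (-1 : ℝ) 1)).toLinearMap
  have hR : ∀ g : ℝ[X], g ∈ PosP ↔ R g ∈ {f : C(Set.Icc (-1 : ℝ) 1, ℝ) |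
      Set.MapsTo f Set.univ (Set.Ioi 0)} := by
    intro g
    constructor
    · intro hg x _
      exact hg x x.2
    · intro hg x hx
      exact hg (Set.mem_univ (⟨x, hx⟩ : Set.Icc (-1 : ℝ) 1))
  have hopen : IsOpen (T '' PosP) := by
    rw [isOpen_iff_forall_mem_open]
    rintro _ ⟨g, hg, rfl⟩
    refine ⟨{y | g + S (y - T g) ∈ PosP}, ?_, ?_, ?_⟩
    · intro y hy
      exact ⟨_, hy, by rw [map_add, hS']; abel⟩
    · have hc : Continuous fun y : Fin N → ℝ => R g + (R ∘ₗ S) (y - T g) := by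
        have := (R ∘ₗ S).continuous_of_finiteDimensional
        fun_prop
      have := (ContinuousMap.isOpen_setOfPred_mapsTo isCompact_univ
        (isOpen_Ioi (a := (0 : ℝ)))).preimage hc
      convert this using 1
      ext y
      simp only [Set.mem_ofPred_eq, Set.mem_preimage, hR, map_add, LinearMap.comp_apply]
    · simpa using hg
  have hconv : Convex ℝ (T '' PosP) := by
    apply Convex.linear_image
    intro a ha b hb u v hu hv huv x hx
    simp only [eval_add, eval_smul, smul_eq_mul]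
    have h1 := ha x hx
    have h2 := hb x hx
    rcases eq_or_lt_of_le hu with h | h
    · subst h
      have : v = 1 := by linarith
      subst this; simpa using h2
    · nlinarith [mul_pos h h1, mul_nonneg hv h2.le]
  by_contra hcon
  have h0 : (0 : Fin N → ℝ) ∉ T '' PosP := by
    rintro ⟨g, hg, hg0⟩
    apply hcon
    refine ⟨g, hg, fun l hl => ?_⟩
    have := congrFun hg0 ⟨l, hl⟩
    rw [hT] at this
    simpa using this
  obtain ⟨ℓ, hℓ⟩ := geometric_hahn_banach_open_point hconv hopen h0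
  obtain ⟨p, hpd, -, hp⟩ := hfun ℓ.toLinearMap
  have hneg : ∀ g ∈ PosP, II m (q * p * g) < 0 := by
    intro g hg
    have := hℓ _ ⟨g, hg, rfl⟩
    rw [map_zero] at this
    rw [← hp]; exact this
  have hle : ∀ x ∈ Set.Ioo (-1 : ℝ) 1, (q * p).eval x ≤ 0 := by
    intro x hx
    by_contra hc
    obtain ⟨g, hg, hg'⟩ := exists_pos_II m (q * p) x hx (not_le.mp hc)
    exact lt_asymm hg' (hneg g hg)
  have hroot : ∀ j, p.eval (t j) = 0 := by
    intro j
    have hqj : q = (X - C (t j)) * ∏ i ∈ Finset.univ.erase j, (X - C (t i)) := by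
      rw [hq, Finset.mul_prod_erase _ (fun i => X - C (t i)) (Finset.mem_univ j)]
    set r := ∏ i ∈ Finset.univ.erase j, (X - C (t i)) with hr
    have hr0 : r.eval (t j) ≠ 0 := by
      rw [hr, eval_prod]
      refine Finset.prod_ne_zero_iff.mpr fun i hi => ?_
      simp only [eval_sub, eval_X, eval_C]
      exact sub_ne_zero.mpr fun h => (Finset.mem_erase.mp hi).1 (ht h).symm
    have hmax : IsLocalMax (fun x => (q * p).eval x) (t j) := by
      have : (q * p).eval (t j) = 0 := by rw [hqj]; simp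
      filter_upwards [Ioo_mem_nhds (ht' j).1 (ht' j).2] with x hx
      rw [this]; exact hle x hx
    have hd := hmax.hasDerivAt_eq_zero ((q * p).hasDerivAt (t j))
    rw [hqj] at hd
    simp only [derivative_mul, derivative_sub, derivative_X, derivative_C, eval_add, eval_mul,
      eval_sub, eval_X, eval_C, sub_self, zero_mul, sub_zero, one_mul, add_zero] at hd
    exact (mul_eq_zero.mp hd).resolve_left hr0
  have hp0 : p = 0 := by
    apply Polynomial.eq_zero_of_degree_lt_of_eval_index_eq_zero Finset.univ ht.injOn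
    · simpa using hpd
    · intro j _; exact hroot j
  have := hneg 1 (fun x _ => by simp)
  rw [hp0] at this
  simp at this

end Pool.Agent.P.MP_a2f83a_an
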