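import Mathlib

set_option autoImplicit false

namespace Pool.Agent.P.MP_a2f83a_an

open MvPolynomial InnerProductSpace Laplacian

/-- the polynomial function attached to a multivariate polynomial -/
noncomputable def ev {n : ℕ} (p : MvPolynomial (Fin n) ℝ) (x : EuclideanSpace ℝ (Fin n)) : ℝ :=
  MvPolynomial.eval (fun i => x i) p

lemma ev_contDiff {n : ℕ} (p : MvPolynomial (Fin n) ℝ) (k : WithTop ℕ∞) :
    ContDiff ℝ k (ev p) := by
  have h : AnalyticOnNhd ℝ (ev p) Set.univ :=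
    AnalyticOnNhd.eval_continuousLinearMap'
      (fun i => (EuclideanSpace.proj i : EuclideanSpace ℝ (Fin n) →L[ℝ] ℝ)) p
  exact h.contDiff

lemma ev_fderiv {n : ℕ} (p : MvPolynomial (Fin n) ℝ) (i : Fin n) (x : EuclideanSpace ℝ (Fin n)) :
    fderiv ℝ (ev p) x (EuclideanSpace.single i (1 : ℝ)) = ev (pderiv i p) x := by
  induction p using MvPolynomial.induction_on with
  | C a =>
    have : ev (C a : MvPolynomial (Fin n) ℝ) = fun _ => a := by
      funext y; simp [ev]
    rw [this]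
    simp [ev]
  | add p q hp hq =>
    have : ev (p + q) = ev p + ev q := by
      funext y; simp [ev]
    rw [this, fderiv_add ((ev_contDiff p 1).differentiable one_ne_zero x)
      ((ev_contDiff q 1).differentiable one_ne_zero x)]
    simp only [add_apply, hp, hq]
    simp [ev]
  | mul_X p j hp =>
    have : ev (p * X j) = ev p * ⇑(EuclideanSpace.proj j : EuclideanSpace ℝ (Fin n) →L[ℝ] ℝ) := by
      funext y; simp [ev]
    rw [this, fderiv_mul ((ev_contDiff p 1).differentiable one_ne_zero x)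
      (ContinuousLinearMap.differentiableAt _)]
    simp only [add_apply, smul_apply, hp,
      ContinuousLinearMap.fderiv]
    by_cases h : j = i
    · subst h
      simp [ev]
    · simp [ev, h, pderiv_X_of_ne h]

/-- the algebraic Laplace operator -/
noncomputable def lap {n : ℕ} (p : MvPolynomial (Fin n) ℝ) : MvPolynomial (Fin n) ℝ :=
  ∑ i, pderiv i (pderiv i p)

lemma laplacian_ev {n : ℕ} (p : MvPolynomial (Fin n) ℝ) :
    Δ (ev p) = ev (lap p) := by
  rw [laplacian_eq_iteratedFDeriv_orthonormalBasis _ (EuclideanSpace.basisFun (Fin n) ℝ)]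
  funext x
  have : ev (lap p) x = ∑ i, ev (pderiv i (pderiv i p)) x := by
    simp [ev, lap]
  rw [this]
  refine Finset.sum_congr rfl fun i _ => ?_
  rw [iteratedFDeriv_two_apply]
  simp only [Matrix.cons_val_zero, Matrix.cons_val_one, EuclideanSpace.basisFun_apply]
  rw [← ev_fderiv]
  have h1 : ev (pderiv i p) = fun y => fderiv ℝ (ev p) y (EuclideanSpace.single i (1 : ℝ)) := by
    funext y; rw [ev_fderiv]
  have hd : DifferentiableAt ℝ (fderiv ℝ (ev p)) x := by
    have := (ev_contDiff p 2).fderiv_right (m := 1) (by norm_num)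
    exact this.differentiable one_ne_zero x
  rw [h1, fderiv_clm_apply hd (differentiableAt_const _)]
  simp

lemma harmonicAt_ev {n : ℕ} (p : MvPolynomial (Fin n) ℝ) (h : lap p = 0)
    (x : EuclideanSpace ℝ (Fin n)) : HarmonicAt (ev p) x := by
  refine ⟨(ev_contDiff p 2).contDiffAt, ?_⟩
  rw [laplacian_ev, h]
  exact Filter.Eventually.of_forall fun y => by simp [ev]

lemma iteratedFDeriv_eq_zero_of_homog {n : ℕ} (F : EuclideanSpace ℝ (Fin n) → ℝ) (k l : ℕ)
    (hF : ContDiff ℝ l F) (hh : ∀ x, F ((2 : ℝ) • x) = 2 ^ k * F x) (hl : l < k) :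
    iteratedFDeriv ℝ l F 0 = 0 := by
  have h1 := congrFun (iteratedFDeriv_comp_const_smul (2 : ℝ) hF) 0
  have h2 : (fun z => F ((2 : ℝ) • z)) = ((2 : ℝ) ^ k) • F := by
    funext z; simp [hh]
  rw [h2, iteratedFDeriv_const_smul_apply hF.contDiffAt, smul_zero] at h1
  have h3 : ((2 : ℝ) ^ k - 2 ^ l) • iteratedFDeriv ℝ l F 0 = 0 := by
    rw [sub_smul, h1, sub_self]
  have h4 : ((2 : ℝ) ^ k - 2 ^ l) ≠ 0 := by
    have : (2 : ℝ) ^ l < 2 ^ k := pow_lt_pow_right₀ (by norm_num) hl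
    linarith
  exact (smul_eq_zero.mp h3).resolve_left h4

/-- `2 x₀` -/
noncomputable def TT (m : ℕ) : MvPolynomial (Fin (m + 2)) ℝ := C 2 * X 0

/-- `4 ‖x‖²` -/
noncomputable def QQ (m : ℕ) : MvPolynomial (Fin (m + 2)) ℝ := C 4 * ∑ i, X i ^ 2

lemma pderiv_QQ (m : ℕ) (i : Fin (m + 2)) : pderiv i (QQ m) = C 8 * X i := by
  unfold QQ
  rw [pderiv_C_mul, map_sum, Finset.sum_eq_single i]
  · rw [pderiv_pow]
    simp only [pderiv_X_self, Nat.cast_ofNat, mul_one]
    have : (C 8 : MvPolynomial (Fin (m + 2)) ℝ) = C 4 * 2 := by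
      rw [show (2 : MvPolynomial (Fin (m + 2)) ℝ) = C 2 from rfl, ← map_mul]; norm_num
    rw [this]; ring
  · intro j _ hj
    rw [pderiv_pow, pderiv_X_of_ne hj, mul_zero]
  · simp

lemma pderiv_TT (m : ℕ) (i : Fin (m + 2)) : pderiv i (TT m) = if i = 0 then C 2 else 0 := by
  unfold TT
  rw [pderiv_C_mul]
  split_ifs with h
  · subst h; simp
  · rw [pderiv_X_of_ne (Ne.symm h), mul_zero]

lemma C2 (m : ℕ) : (C 2 : MvPolynomial (Fin (m + 2)) ℝ) = 2 := rfl
lemma C4 (m : ℕ) : (C 4 : MvPolynomial (Fin (m + 2)) ℝ) = 4 := rfl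
lemma C8 (m : ℕ) : (C 8 : MvPolynomial (Fin (m + 2)) ℝ) = 8 := rfl

lemma pow_aux1 {R : Type*} [CommRing R] (x : R) (a : ℕ) :
    (a : R) * x ^ (a - 1) * x = a * x ^ a := by
  cases a with
  | zero => simp
  | succ a => simp [pow_succ]; ring

lemma pow_aux2 {R : Type*} [CommRing R] (x : R) (a : ℕ) :
    (a : R) * ((a - 1 : ℕ) : R) * x ^ (a - 1 - 1) * x = a * (a - 1) * x ^ (a - 1) := by
  cases a with
  | zero => simp
  | succ a =>
    have := pow_aux1 x a
    simp only [Nat.add_sub_cancel, Nat.cast_add, Nat.cast_one, add_sub_cancel_right]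
    linear_combination ((a : R) + 1) * this

lemma pow_aux3 {R : Type*} [CommRing R] (a : ℕ) :
    (a : R) * ((a - 1 : ℕ) : R) = a * (a - 1) := by
  cases a with
  | zero => simp
  | succ a => simp

lemma lap_TQ (m a j : ℕ) :
    lap (TT m ^ a * QQ m ^ j) =
      4 * ((a * (a - 1) : MvPolynomial (Fin (m + 2)) ℝ) * (TT m ^ (a - 2) * QQ m ^ j) +
        (2 * j * (2 * a + 2 * j + m) : MvPolynomial (Fin (m + 2)) ℝ) *
          (TT m ^ a * QQ m ^ (j - 1))) := by
  have key : ∀ i : Fin (m + 2), pderiv i (pderiv i (TT m ^ a * QQ m ^ j)) =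
      ((a : MvPolynomial (Fin (m + 2)) ℝ) * ((a - 1 : ℕ) : MvPolynomial (Fin (m + 2)) ℝ) *
          TT m ^ (a - 1 - 1) * QQ m ^ j) *
          (if i = 0 then 4 else 0) +
        (2 * (a : MvPolynomial (Fin (m + 2)) ℝ) * (j : MvPolynomial (Fin (m + 2)) ℝ) *
          TT m ^ (a - 1) * QQ m ^ (j - 1)) * (if i = 0 then 8 * TT m else 0) +
        ((j : MvPolynomial (Fin (m + 2)) ℝ) * ((j - 1 : ℕ) : MvPolynomial (Fin (m + 2)) ℝ) *
          TT m ^ a * QQ m ^ (j - 1 - 1) * 64) * X i ^ 2 +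
        8 * (j : MvPolynomial (Fin (m + 2)) ℝ) * TT m ^ a * QQ m ^ (j - 1) := by
    intro i
    have hn : ∀ b : ℕ, pderiv i (b : MvPolynomial (Fin (m + 2)) ℝ) = 0 := by
      intro b; simp
    have hC2 : pderiv i (2 : MvPolynomial (Fin (m + 2)) ℝ) = 0 := by
      rw [← C2]; exact pderiv_C
    have hC8 : pderiv i (8 : MvPolynomial (Fin (m + 2)) ℝ) = 0 := by
      rw [← C8]; exact pderiv_C
    by_cases h : i = 0
    · simp only [pderiv_mul, pderiv_pow, map_add, pderiv_QQ, pderiv_TT, h, if_true, C2, C8]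
      subst h
      simp only [hn, hC2, hC8, pderiv_X_self]
      have hT : TT m = 2 * X 0 := rfl
      have hX : (X 0 : MvPolynomial (Fin (m + 2)) ℝ) * 16 = 8 * TT m := by rw [hT]; ring
      linear_combination (2 * a * j * TT m ^ (a - 1) * QQ m ^ (j - 1)) * hX
    · simp only [pderiv_mul, pderiv_pow, map_add, pderiv_QQ, pderiv_TT, h, if_false, C8]
      simp only [hn, hC8, pderiv_X_self, map_zero]
      ring
  unfold lap
  simp only [key, Finset.sum_add_distrib, ← Finset.mul_sum, Finset.sum_ite_eq', Finset.mem_univ,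
    if_true, Finset.sum_const, Finset.card_univ, Fintype.card_fin, nsmul_eq_mul]
  have hQ : (∑ i : Fin (m + 2), (X i : MvPolynomial (Fin (m + 2)) ℝ) ^ 2) * 4 = QQ m := by
    unfold QQ; rw [C4]; ring
  have e1 := pow_aux1 (TT m) a
  have e2 := pow_aux2 (QQ m) j
  have e3 := pow_aux3 (R := MvPolynomial (Fin (m + 2)) ℝ) a
  rw [show a - 1 - 1 = a - 2 by omega]
  push_cast
  linear_combination (4 * TT m ^ (a - 2) * QQ m ^ j) * e3 + (16 * j * QQ m ^ (j - 1)) * e1 +
    (16 * TT m ^ a) * e2 +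
    (16 * j * ((j - 1 : ℕ) : MvPolynomial (Fin (m + 2)) ℝ) * TT m ^ a * QQ m ^ (j - 1 - 1)) * hQ

end Pool.Agent.P.MP_a2f83a_an
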