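import Pool.Agent.P.MP_a2f83a_an.SdExt

set_option autoImplicit false

namespace Pool.Agent.P.MP_a2f83a_an.Sd

open MeasureTheory Metric Set Filter Topology MvPolynomial InnerProductSpace Laplacian Asymptotics
open scoped ContDiff

theorem orth_all {m N : ℕ} {U : E (m + 1) → ℝ} (hU : ContDiff ℝ 2 U) {ρ : ℝ} (hρ : 1 / 2 < ρ)
    (hΔ : ∀ x ∈ ball (0 : E (m + 1)) ρ, Δ U x = 0)
    (H : ∀ p : MvPolynomial (Fin (m + 1)) ℝ, p.totalDegree < N →
      ∫ θ : Sp (m + 1), U ((1 / 2 : ℝ) • (θ : E (m + 1))) *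
        ev p ((1 / 2 : ℝ) • (θ : E (m + 1))) ∂sg (m + 1) = 0) :
    ∀ k, k < N → ∀ p : MvPolynomial (Fin (m + 1)) ℝ, p.IsHomogeneous k → ∀ r ∈ Ioo 0 ρ,
      ∫ θ : Sp (m + 1), U (r • (θ : E (m + 1))) * ev p (r • (θ : E (m + 1))) ∂sg (m + 1) = 0 := by
  intro k
  induction k using Nat.strong_induction_on with
  | _ k ih =>
  intro hk p hp
  obtain ⟨c, hc⟩ := ode_step hU (by linarith) hΔ hp (by
    intro r hr
    rcases lt_or_ge k 2 with h | h
    · simp [lap_low hp h, ev]
    · obtain ⟨j, rfl⟩ := Nat.exists_eq_add_of_le' h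
      exact ih j (by omega) (by omega) _ (lap_homog hp) r hr)
  have e : ∀ r ∈ Ioo 0 ρ, ∫ θ : Sp (m + 1), U (r • (θ : E (m + 1))) *
      ev p (r • (θ : E (m + 1))) ∂sg (m + 1) = r ^ k * (c * r ^ k) := by
    intro r hr
    simp only [ev_smul hp, mul_left_comm _ (r ^ k)]
    rw [integral_const_mul, hc r hr]
  have h1 := e (1 / 2) ⟨by norm_num, hρ⟩
  rw [H p (hp.totalDegree_le.trans_lt hk)] at h1
  have h2 : (1 / 2 : ℝ) ^ k ≠ 0 := by positivity
  have hc0 : c = 0 := (mul_eq_zero.1 ((mul_eq_zero.1 h1.symm).resolve_left h2)).resolve_right h2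
  intro r hr
  rw [e r hr, hc0, zero_mul, mul_zero]

theorem order_of_weak {m : ℕ} {δ ρ : ℝ} (hδ : 0 < δ) (hρ : δ < ρ) (N : ℕ) :
    ∀ U : E (m + 1) → ℝ, ContDiff ℝ ∞ U → (∀ x ∈ ball (0 : E (m + 1)) ρ, Δ U x = 0) →
      (∀ k < N, ∀ p : MvPolynomial (Fin (m + 1)) ℝ, p.IsHomogeneous k → ∀ w : ℝ → ℝ,
        ContDiff ℝ ∞ w → (∀ s, δ ^ 2 < s → w s = 0) →
        ∫ x, (U x * ev p x) * w (‖x‖ ^ 2) = 0) →
      ∀ k < N, iteratedFDeriv ℝ k U 0 = 0 := by
  have hρ0 : 0 < ρ := hδ.trans hρ
  have hl : ∀ {w : ℝ → ℝ}, (∀ s, δ ^ 2 < s → w s = 0) → ∀ s, ρ ^ 2 ≤ s → w s = 0 :=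
    fun h s hs => h s (lt_of_lt_of_le (by gcongr) hs)
  induction N with
  | zero => intro U _ _ _ k hk; omega
  | succ N ih =>
    intro U hU hΔ H k hk
    cases k with
    | zero =>
      have h1 := H 0 hk 1 (isHomogeneous_one _ _) (wt δ) (wt_smooth δ ⊤)
        fun s hs => wt_zero δ s hs.le
      have h2 := mean_value (sm_le hU 2) hδ (c := 0)
        (fun x hx => hΔ x (ball_subset_ball hρ.le hx)) (wt_smooth δ 0).continuous (wt_zero δ)
      simp only [ev, map_one, mul_one] at h1
      simp only [zero_add] at h2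
      rw [h1] at h2
      have h3 := (mul_eq_zero.1 h2.symm).resolve_right (wt_int_pos hδ).ne'
      rw [← norm_eq_zero, norm_iteratedFDeriv_zero, norm_eq_zero]
      exact h3
    | succ k =>
      have key : ∀ i, iteratedFDeriv ℝ k (pd i U) 0 = 0 := by
        intro i
        refine ih _ (pd_smooth i hU) (lap_pd i hU hΔ) ?_ k (by omega)
        intro j hj p hp w hw hw0
        have hw' : ContDiff ℝ ∞ (deriv w) := (contDiff_infty_iff_deriv.1 hw).2
        have hwd : ∀ s, HasDerivAt w (deriv w s) s := fun s =>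
          ((contDiff_infty_iff_deriv.1 hw).1 s).hasDerivAt
        have hw0' : ∀ s, δ ^ 2 < s → deriv w s = 0 := by
          intro s hs
          have : w =ᶠ[𝓝 s] fun _ => 0 := by
            filter_upwards [Ioi_mem_nhds hs] with t ht using hw0 t ht
          rw [this.deriv_eq, deriv_const]
        have a1 := H (j - 1) (by omega) _ (hp.pderiv (i := i)) w hw hw0
        have a2 := H (1 + j) (by omega) _ ((isHomogeneous_X ℝ i).mul hp) _ hw' hw0'
        have hN : ContDiff ℝ 1 fun y : E (m + 1) => w (‖y‖ ^ 2) :=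
          (hw.of_le (by simp)).comp (contDiff_norm_sq ℝ)
        have hA := (sm_le hU 1).mul (ev_contDiff p 1)
        have a3 : ∫ x, pd i (fun x => (U x * ev p x) * w (‖x‖ ^ 2)) x = 0 :=
          int_fderiv (hA.mul hN) (supp_weight hρ0 (hl hw0) _) _
        have e : ∀ x, pd i (fun x => (U x * ev p x) * w (‖x‖ ^ 2)) x =
            (pd i U x * ev p x) * w (‖x‖ ^ 2) + ((U x * ev (pderiv i p) x) * w (‖x‖ ^ 2) +
              2 * ((U x * ev (X i * p) x) * deriv w (‖x‖ ^ 2))) := by
          intro x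
          rw [pd_mul i (hA.differentiable (by simp) x) (hN.differentiable one_ne_zero x),
            pd_weight i hwd, pd_mul i (hU.differentiable (by simp) x)
              ((ev_contDiff p 1).differentiable one_ne_zero x), pd_ev]
          simp only [ev, map_mul, eval_X]
          ring
        have c1 := hU.continuous
        have c2 := (pd_smooth i hU).continuous
        have c3 := ev_cont p
        have c4 := ev_cont (pderiv i p)
        have c5 := ev_cont (X i * p)
        have c6 := hw.continuous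
        have c7 := hw'.continuous
        have i1 : Integrable fun x : E (m + 1) => (pd i U x * ev p x) * w (‖x‖ ^ 2) :=
          Continuous.integrable_of_hasCompactSupport (by fun_prop) (supp_weight hρ0 (hl hw0) _)
        have i2 : Integrable fun x : E (m + 1) => (U x * ev (pderiv i p) x) * w (‖x‖ ^ 2) :=
          Continuous.integrable_of_hasCompactSupport (by fun_prop) (supp_weight hρ0 (hl hw0) _)
        have i3 : Integrable fun x : E (m + 1) => (U x * ev (X i * p) x) * deriv w (‖x‖ ^ 2) :=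
          Continuous.integrable_of_hasCompactSupport (by fun_prop) (supp_weight hρ0 (hl hw0') _)
        simp only [e] at a3
        rw [integral_add i1 (i2.fun_add (i3.const_mul 2)), integral_add i2 (i3.const_mul 2),
          integral_const_mul, a1, a2] at a3
        linarith
      ext v
      rw [iteratedFDeriv_succ_apply_right]
      have hD : ContDiff ℝ ∞ (fderiv ℝ U) := hU.fderiv_right (m := ∞) (by simp)
      conv_lhs => rw [← (EuclideanSpace.basisFun (Fin (m + 1)) ℝ).sum_repr (v (Fin.last k))]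
      rw [map_sum]
      refine Finset.sum_eq_zero fun i _ => ?_
      rw [map_smul, EuclideanSpace.basisFun_apply,
        ← iteratedFDeriv_clm_apply_const_apply hD (by exact_mod_cast le_top)]
      have := key i
      unfold pd at this
      rw [this]
      simp

/-- orthogonality to low degrees on the sphere forces a high order of vanishing -/
theorem order_of_orth {m N : ℕ} {u : E (m + 1) → ℝ} (hu : HarmonicOnNhd u (ball 0 1))
    (H : ∀ p : MvPolynomial (Fin (m + 1)) ℝ, p.totalDegree < N →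
      ∫ θ : Sp (m + 1), u ((1 / 2 : ℝ) • (θ : E (m + 1))) *
        ev p ((1 / 2 : ℝ) • (θ : E (m + 1))) ∂sg (m + 1) = 0) :
    ∀ k < N, iteratedFDeriv ℝ k u 0 = 0 := by
  obtain ⟨U, h1, -, h3, h4⟩ := harm_cut hu (ρ := 3 / 4) (by norm_num) (by norm_num)
  have h5 := orth_all (N := N) (sm_le h1 2) (by norm_num) h4 fun p hp => by
    rw [← H p hp]
    refine integral_congr_ae (Eventually.of_forall fun θ => ?_)
    simp only
    rw [(h3 _ (by rw [mem_ball_zero_iff, norm_smul, norm_sp]; norm_num)).eq_of_nhds]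
  intro k hk
  rw [← ((h3 0 (mem_ball_self (by norm_num))).iteratedFDeriv ℝ k).eq_of_nhds]
  refine order_of_weak (δ := 1 / 2) (by norm_num) (by norm_num) N U h1 h4 ?_ k hk
  intro j hj p hp w hw hw0
  have hl : ∀ s, (3 / 4 : ℝ) ^ 2 ≤ s → w s = 0 := fun s hs => hw0 s (by linarith)
  have c1 := h1.continuous
  have c2 := ev_cont p
  rw [polar_weight (by fun_prop) (by norm_num) hw.continuous hl]
  refine setIntegral_eq_zero_of_forall_eq_zero fun r hr => ?_
  rcases lt_or_ge r (3 / 4) with h | h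
  · rw [h5 j hj p hp r ⟨hr, h⟩]; simp
  · rw [hl _ (by gcongr)]; simp

/-- restriction of polynomials to the sphere of radius one half -/
noncomputable def RR (n : ℕ) : MvPolynomial (Fin n) ℝ →ₐ[ℝ] C(Sp n, ℝ) :=
  aeval fun i => ⟨fun θ => ((1 / 2 : ℝ) • (θ : E n)) i, by fun_prop⟩

theorem RR_apply {n : ℕ} (p : MvPolynomial (Fin n) ℝ) (θ : Sp n) :
    RR n p θ = ev p ((1 / 2 : ℝ) • (θ : E n)) := by
  induction p using MvPolynomial.induction_on with
  | C a => simp [RR, ev]
  | add p q hp hq => simp only [map_add, ContinuousMap.add_apply, hp, hq, ev]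
  | mul_X p j hp =>
    rw [map_mul, ContinuousMap.mul_apply, hp]
    simp [RR, ev]

theorem RR_dense (n : ℕ) : DenseRange (RR n) := by
  have h := ContinuousMap.subalgebra_topologicalClosure_eq_top_of_separatesPoints (RR n).range (by
    intro x y hxy
    obtain ⟨i, hi⟩ : ∃ i, (x : E n) i ≠ (y : E n) i := by
      by_contra hc
      push Not at hc
      exact hxy (Subtype.ext (PiLp.ext hc))
    refine ⟨_, ⟨RR n (X i), ⟨X i, rfl⟩, rfl⟩, ?_⟩
    simpa [RR] using hi)
  have h2 := congrArg (fun A : Subalgebra ℝ C(Sp n, ℝ) => (A : Set C(Sp n, ℝ))) h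
  simp only [Subalgebra.topologicalClosure_coe, Algebra.coe_top] at h2
  exact dense_iff_closure_eq.2 h2

/-- integration over the sphere -/
noncomputable def JJ (n : ℕ) : C(Sp n, ℝ) →L[ℝ] ℝ :=
  LinearMap.mkContinuous
    { toFun := fun f => ∫ θ, f θ ∂sg n
      map_add' := fun f g => integral_add (sph_int f.continuous) (sph_int g.continuous)
      map_smul' := fun c f => integral_const_mul c f }
    ((sg n).real univ) fun f => by
      rw [mul_comm]
      exact norm_integral_le_of_norm_le_const (Eventually.of_forall fun θ => f.norm_coe_le_norm θ)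

theorem JJ_apply {n : ℕ} (f : C(Sp n, ℝ)) : JJ n f = ∫ θ, f θ ∂sg n := rfl

theorem sph_zero {n : ℕ} {f : Sp n → ℝ} (hf : Continuous f) (h0 : ∀ θ, 0 ≤ f θ)
    (h : ∫ θ, f θ ∂sg n ≤ 0) (θ : Sp n) : f θ = 0 := by
  by_contra hne
  exact (hf.integral_pos_of_hasCompactSupport_nonneg_nonzero (μ := sg n)
    (HasCompactSupport.of_compactSpace f) h0 hne).not_ge h

theorem separation {n : ℕ} (V : Submodule ℝ (MvPolynomial (Fin n) ℝ)) [Module.Finite ℝ V]
    (q : C(Sp n, ℝ)) (H : ∀ p ∈ V, (∀ θ, 0 ≤ RR n p θ * q θ) → ∀ θ, RR n p θ * q θ = 0) :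
    ∃ g, (∀ θ, 0 < RR n g θ) ∧ ∀ p ∈ V, JJ n (RR n p * q * RR n g) = 0 := by
  by_contra hcon
  let b := Module.finBasis ℝ V
  let M : MvPolynomial (Fin n) ℝ → C(Sp n, ℝ) →L[ℝ] ℝ := fun p =>
    (JJ n).comp (ContinuousLinearMap.mul ℝ C(Sp n, ℝ) (RR n p * q))
  have hM : ∀ p f, M p f = JJ n (RR n p * q * f) := fun _ _ => rfl
  let L : Fin (Module.finrank ℝ V) → MvPolynomial (Fin n) ℝ →ₗ[ℝ] ℝ := fun i =>
    (M (b i)).toLinearMap ∘ₗ (RR n).toLinearMap
  have hsum : ∀ (c : Fin (Module.finrank ℝ V) → ℝ) g,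
      M ((∑ i, c i • b i : V) : MvPolynomial (Fin n) ℝ) (RR n g) = ∑ i, c i * L i g := by
    intro c g
    simp [hM, L, Finset.sum_mul, map_sum]
  let T : Submodule ℝ C(Sp n, ℝ) := (⨅ i, LinearMap.ker (L i)).map (RR n).toLinearMap
  let P : Set C(Sp n, ℝ) := {f | MapsTo f univ (Ioi 0)}
  have hPo : IsOpen P := ContinuousMap.isOpen_setOfPred_mapsTo isCompact_univ isOpen_Ioi
  have hPc : Convex ℝ P := fun f hf g hg a c ha hc hac θ _ =>
    convex_Ioi (0 : ℝ) (hf (mem_univ θ)) (hg (mem_univ θ)) ha hc hac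
  have hd : Disjoint P (T : Set C(Sp n, ℝ)) := by
    rw [Set.disjoint_left]
    rintro f hf ⟨g, hg, rfl⟩
    refine hcon ⟨g, fun θ => hf (mem_univ θ), fun p hp => ?_⟩
    have h1 := hsum (b.repr ⟨p, hp⟩) g
    rw [b.sum_repr] at h1
    rw [← hM, h1]
    refine Finset.sum_eq_zero fun i _ => ?_
    rw [LinearMap.mem_ker.1 ((Submodule.mem_iInf _).1 hg i), mul_zero]
  obtain ⟨f, u, hf1, hf2⟩ := geometric_hahn_banach_open hPc hPo T.convex hd
  have hu : u ≤ 0 := by simpa using hf2 0 T.zero_mem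
  have hT : ∀ t ∈ T, f t = 0 := by
    intro t ht
    by_contra hne
    have := hf2 _ (T.smul_mem ((u - 1) / f t) ht)
    rw [map_smul, smul_eq_mul, div_mul_cancel₀ _ hne] at this
    linarith
  obtain ⟨c, hc⟩ := (Submodule.mem_span_range_iff_exists_fun ℝ).1 (mem_span_of_iInf_ker_le_ker
    (L := L) (K := f.toLinearMap ∘ₗ (RR n).toLinearMap) fun g hg => hT _ ⟨g, hg, rfl⟩)
  set p : V := ∑ i, c i • b i with hp
  have hfe : ∀ a, f a = M p a := by
    refine congrFun ((RR_dense n).equalizer f.continuous (M p).continuous (funext fun g => ?_))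
    have := LinearMap.congr_fun hc g
    simp only [LinearMap.coe_sum, Finset.sum_apply, LinearMap.smul_apply, smul_eq_mul] at this
    simp only [Function.comp_apply]
    rw [hsum, this]
    rfl
  set φ : C(Sp n, ℝ) := RR n p * q with hφ
  have hneg : ∀ a ∈ P, JJ n (φ * a) < 0 := fun a ha => by
    have := hf1 a ha
    rw [hfe, hM] at this
    linarith
  have h1 : JJ n (φ * (φ ⊔ 0)) ≤ 0 := by
    refine le_of_forall_pos_le_add fun η hη => ?_
    have hK : 0 < |JJ n φ| + 1 := by positivity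
    have h2 := hneg (φ ⊔ 0 + (η / (|JJ n φ| + 1)) • 1) fun θ _ => by
      have : (0 : ℝ) ≤ φ θ ⊔ 0 := le_sup_right
      have h3 : 0 < η / (|JJ n φ| + 1) := by positivity
      simp only [mem_Ioi, ContinuousMap.add_apply, ContinuousMap.sup_apply,
        ContinuousMap.zero_apply, ContinuousMap.smul_apply, ContinuousMap.one_apply, smul_eq_mul]
      linarith
    rw [mul_add, map_add, mul_smul_comm, map_smul, mul_one, smul_eq_mul] at h2
    have h4 : -η ≤ η / (|JJ n φ| + 1) * JJ n φ := by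
      rw [div_mul_eq_mul_div, le_div_iff₀ hK]
      nlinarith [neg_abs_le (JJ n φ)]
    linarith
  have h2 : ∀ θ, φ θ ≤ 0 := by
    intro θ
    have := sph_zero (φ * (φ ⊔ 0)).continuous (fun θ => by
      simp only [ContinuousMap.mul_apply, ContinuousMap.sup_apply, ContinuousMap.zero_apply]
      rcases le_total (φ θ) 0 with h | h
      · rw [sup_eq_right.2 h, mul_zero]
      · rw [sup_eq_left.2 h]; positivity) h1 θ
    simp only [ContinuousMap.mul_apply, ContinuousMap.sup_apply, ContinuousMap.zero_apply] at this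
    by_contra h
    rw [sup_eq_left.2 (not_le.1 h).le] at this
    exact h (mul_self_eq_zero.1 this).le
  have h3 := H (-p) (V.neg_mem p.2) fun θ => by
    have := h2 θ
    simp only [hφ, ContinuousMap.mul_apply] at this
    simp only [map_neg, ContinuousMap.neg_apply]
    linarith
  have h4 : φ = 0 := by
    ext θ
    have := h3 θ
    simp only [map_neg, ContinuousMap.neg_apply] at this
    simp only [hφ, ContinuousMap.mul_apply, ContinuousMap.zero_apply]
    linarith
  have := hneg 1 fun θ _ => by simp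
  rw [h4] at this
  simp at this

theorem half_norm {n : ℕ} (θ : Sp n) : ‖(1 / 2 : ℝ) • (θ : E n)‖ = 1 / 2 := by
  rw [norm_smul, norm_sp]; norm_num

theorem half_surj {n : ℕ} {x : E n} (hx : ‖x‖ = 1 / 2) :
    ∃ θ : Sp n, (1 / 2 : ℝ) • (θ : E n) = x :=
  ⟨⟨(2 : ℝ) • x, by rw [mem_sphere_zero_iff_norm, norm_smul, hx]; norm_num⟩, by
    simp [smul_smul]⟩

theorem half_cont {n : ℕ} {v : E n → ℝ} (hv : HarmonicOnNhd v (ball 0 1)) :
    Continuous fun θ : Sp n => v ((1 / 2 : ℝ) • (θ : E n)) :=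
  hv.continuousOn.comp_continuous (by fun_prop) fun θ => by
    rw [mem_ball_zero_iff, half_norm]; norm_num

theorem sign_mul_iff {a b c : ℝ} (h : SignType.sign a = SignType.sign b) :
    (0 ≤ c * b → 0 ≤ c * a) ∧ (c * a = 0 → c * b = 0) := by
  constructor
  · intro h1
    rw [← sign_nonneg_iff, sign_mul] at h1 ⊢
    rwa [h]
  · intro h1
    rw [← sign_eq_zero_iff, sign_mul] at h1 ⊢
    rwa [← h]

/-- the duality between the order of vanishing and the sign pattern -/
theorem duality {m N : ℕ} {v : E (m + 1) → ℝ} (hv : HarmonicOnNhd v (ball 0 1)) :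
    (∃ u : E (m + 1) → ℝ, HarmonicOnNhd u (ball 0 1) ∧ (∀ k < N, iteratedFDeriv ℝ k u 0 = 0) ∧
      ∀ x, ‖x‖ = 1 / 2 → SignType.sign (u x) = SignType.sign (v x)) ↔
    ∀ p : MvPolynomial (Fin (m + 1)) ℝ, p.totalDegree < N →
      (∀ x, ‖x‖ = 1 / 2 → 0 ≤ ev p x * v x) → ∀ x, ‖x‖ = 1 / 2 → ev p x * v x = 0 := by
  constructor
  · rintro ⟨u, hu, h0, hs⟩ p hp H x hx
    obtain ⟨θ, rfl⟩ := half_surj hx
    have c1 := half_cont hu
    have c2 := ev_cont p
    have h1 := orth_of_order hu h0 hp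
    simp only [mul_comm (u _)] at h1
    exact (sign_mul_iff (hs _ hx)).2 (sph_zero (Continuous.mul (by fun_prop) c1)
      (fun θ => (sign_mul_iff (hs _ (half_norm θ))).1 (H _ (half_norm θ))) h1.le θ)
  · intro H
    cases N with
    | zero => exact ⟨v, hv, fun k hk => by omega, fun _ _ => rfl⟩
    | succ N =>
      obtain ⟨g, hg, ho⟩ := separation (restrictTotalDegree (Fin (m + 1)) ℝ N)
        ⟨_, half_cont hv⟩ fun p hp h θ => by
          rw [mem_restrictTotalDegree] at hp
          simp only [RR_apply, ContinuousMap.coe_mk] at h ⊢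
          refine H p (by omega) (fun x hx => ?_) _ (half_norm θ)
          obtain ⟨θ, rfl⟩ := half_surj hx
          exact h θ
      obtain ⟨u, hu, he⟩ := ext_poly hv g
      refine ⟨u, hu, order_of_orth hu fun p hp => ?_, fun x hx => ?_⟩
      · rw [← ho p ((mem_restrictTotalDegree _ _ _).2 (by omega)), JJ_apply]
        refine integral_congr_ae (Eventually.of_forall fun θ => ?_)
        simp only [ContinuousMap.mul_apply, RR_apply, ContinuousMap.coe_mk, he _ (half_norm θ)]
        ring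
      · obtain ⟨θ, rfl⟩ := half_surj hx
        have := hg θ
        rw [RR_apply] at this
        rw [he _ hx, sign_mul, sign_pos this, one_mul]

end Pool.Agent.P.MP_a2f83a_an.Sd
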