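import Pool.Agent.P.MP_a2f83a_an.SdDual

set_option autoImplicit false

namespace Pool.Agent.P.MP_a2f83a_an.Sd

open MeasureTheory Metric Set Filter Topology MvPolynomial InnerProductSpace Laplacian Asymptotics

theorem orth_rank {m : ℕ} {v : E (m + 1)} (hv : v ≠ 0) : Module.finrank ℝ (ℝ ∙ v)ᗮ = m :=
  haveI : Fact (Module.finrank ℝ (E (m + 1)) = m + 1) := ⟨by simp⟩
  Submodule.finrank_orthogonal_span_singleton hv

theorem E_rank {m : ℕ} (hm : 1 ≤ m) : 1 < Module.rank ℝ (E (m + 1)) := by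
  rw [← Module.finrank_eq_rank, finrank_euclideanSpace, Fintype.card_fin]
  exact_mod_cast (by omega : 1 < m + 1)

theorem sphere_ident {m : ℕ} (hm : 1 ≤ m) {p : MvPolynomial (Fin (m + 1)) ℝ} {y : E (m + 1)}
    (hy : ‖y‖ = 1 / 2) (h : ∀ᶠ x in 𝓝 y, ‖x‖ = 1 / 2 → ev p x = 0) :
    ∀ x, ‖x‖ = 1 / 2 → ev p x = 0 := by
  have hc : ∀ x : E (m + 1), x ≠ 0 →
      ContDiffAt ℝ ⊤ (fun z : E (m + 1) => (2 * ‖z‖)⁻¹ • z) x := fun x hx =>
    ((contDiffAt_const.mul (contDiffAt_norm ℝ hx)).inv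
      (mul_ne_zero two_ne_zero (norm_ne_zero_iff.2 hx))).smul contDiffAt_id
  have hfix : ∀ x : E (m + 1), ‖x‖ = 1 / 2 → (2 * ‖x‖)⁻¹ • x = x := fun x hx => by
    rw [hx]; norm_num
  have hne : ∀ x : E (m + 1), ‖x‖ = 1 / 2 → x ≠ 0 := fun x hx h0 => by
    rw [h0, norm_zero] at hx; norm_num at hx
  have ha : AnalyticOnNhd ℝ (fun z : E (m + 1) => ev p ((2 * ‖z‖)⁻¹ • z)) {0}ᶜ := fun x hx =>
    ((ev_contDiff p ⊤).contDiffAt.comp x (hc x hx)).analyticAt
  have ht := (hc y (hne y hy)).continuousAt.tendsto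
  rw [hfix y hy] at ht
  have h1 := ha.eqOn_zero_of_preconnected_of_eventuallyEq_zero
    (isConnected_compl_singleton_of_one_lt_rank (E_rank hm) 0).isPreconnected (hne y hy) (by
      filter_upwards [ht.eventually h, isOpen_compl_singleton.mem_nhds (hne y hy)] with z h2 h3
      refine h2 ?_
      have : ‖z‖ ≠ 0 := norm_ne_zero_iff.2 h3
      rw [norm_smul, norm_inv, Real.norm_of_nonneg (by positivity)]
      field_simp)
  intro x hx
  have := h1 (hne x hx)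
  simpa only [hfix x hx, Pi.zero_apply] using this

/-- the function takes both signs on the sphere of radius one half -/
def Signs {n : ℕ} (f : E n → ℝ) : Prop :=
  (∃ a, ‖a‖ = 1 / 2 ∧ 0 < f a) ∧ ∃ b, ‖b‖ = 1 / 2 ∧ f b < 0

theorem zero_off {m : ℕ} (hm : 2 ≤ m) {f : E (m + 1) → ℝ} (hf : HarmonicOnNhd f (ball 0 1))
    (hs : Signs f) {F : Set (E (m + 1))} (hF : F.Finite) (h0 : ∀ y ∈ F, f y = 0) :
    ∃ y, ‖y‖ = 1 / 2 ∧ y ∉ F ∧ f y = 0 := by
  obtain ⟨⟨a, ha, ha'⟩, b, hb, hb'⟩ := hs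
  obtain ⟨y, hy, hy0⟩ := (isPreconnected_sphere (E_rank (by omega)) (0 : E (m + 1))
    (1 / 2)).intermediate_value (mem_sphere_zero_iff_norm.2 hb) (mem_sphere_zero_iff_norm.2 ha)
    (hf.continuousOn.mono fun x hx => by
      rw [mem_ball_zero_iff, mem_sphere_zero_iff_norm.1 hx]; norm_num) ⟨hb'.le, ha'.le⟩
  obtain ⟨v, rfl⟩ := half_surj (mem_sphere_zero_iff_norm.1 hy)
  obtain ⟨α, rfl⟩ := half_surj ha
  obtain ⟨β, rfl⟩ := half_surj hb
  have hv := norm_sp v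
  set g : (ℝ ∙ (v : E (m + 1)))ᗮ → E (m + 1) := fun w =>
    (1 / 2 : ℝ) • (stereoInvFun hv w : E (m + 1)) with hg
  have hinj : Function.Injective g := fun w w' h => by
    have h1 : stereoInvFun hv w = stereoInvFun hv w' :=
      Subtype.ext (smul_right_injective _ (by norm_num) h)
    rw [← stereo_right_inv hv w, h1, stereo_right_inv]
  have hr : 1 < Module.rank ℝ (ℝ ∙ (v : E (m + 1)))ᗮ := by
    rw [← Module.finrank_eq_rank, orth_rank (ne_zero_of_mem_unit_sphere v)]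
    exact_mod_cast (by omega : 1 < m)
  have hc := ((hF.preimage hinj.injOn).countable.isPathConnected_compl_of_one_lt_rank
    hr).isConnected.isPreconnected
  have e : ∀ θ : Sp (m + 1), f ((1 / 2 : ℝ) • (θ : E (m + 1))) ≠ 0 →
      g (stereoToFun (v : E (m + 1)) θ) = (1 / 2 : ℝ) • (θ : E (m + 1)) := fun θ h => by
    simp only [hg]
    rw [stereo_left_inv hv fun h1 => h (by rw [h1]; exact hy0)]
  obtain ⟨w, hw, hw0⟩ := hc.intermediate_value (a := stereoToFun (v : E (m + 1)) β)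
    (b := stereoToFun (v : E (m + 1)) α)
    (f := fun w => f (g w)) (fun h => hb'.ne (h0 _ (by rwa [mem_preimage, e β hb'.ne] at h)))
    (fun h => ha'.ne' (h0 _ (by rwa [mem_preimage, e α ha'.ne'] at h)))
    ((half_cont hf).comp (continuous_stereoInvFun hv)).continuousOn
    (show (0 : ℝ) ∈ Icc _ _ by rw [e β hb'.ne, e α ha'.ne']; exact ⟨hb'.le, ha'.le⟩)
  exact ⟨g w, half_norm _, hw, hw0⟩

/-- a great circle -/
noncomputable def gam {n : ℕ} (y e : E n) (t : ℝ) : E n := Real.cos t • y + Real.sin t • e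

theorem gam_zero {n : ℕ} (y e : E n) : gam y e 0 = y := by simp [gam]

theorem gam_deriv {n : ℕ} (y e : E n) : HasDerivAt (gam y e) e 0 := by
  have := ((Real.hasDerivAt_cos 0).smul_const y).fun_add ((Real.hasDerivAt_sin 0).smul_const e)
  exact this.congr_deriv (by simp)

theorem gam_norm {n : ℕ} {y e : E n} (hy : ‖y‖ = 1 / 2) (he : ‖e‖ = 1 / 2)
    (h : inner ℝ y e = 0) (t : ℝ) : ‖gam y e t‖ = 1 / 2 := by
  rw [← sq_eq_sq₀ (norm_nonneg _) (by norm_num), gam, norm_add_sq_real, norm_smul, norm_smul,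
    inner_smul_left, inner_smul_right, h, hy, he, mul_pow, mul_pow, Real.norm_eq_abs,
    Real.norm_eq_abs, sq_abs, sq_abs]
  linear_combination (1 / 4) * Real.cos_sq_add_sin_sq t

theorem gam_comp {n : ℕ} {f : E n → ℝ} {y : E n} (hf : DifferentiableAt ℝ f y) (e : E n) :
    HasDerivAt (fun t => f (gam y e t)) (fderiv ℝ f y e) 0 :=
  hf.hasFDerivAt.comp_hasDerivAt_of_eq 0 (gam_deriv y e) (gam_zero y e).symm

/-- a simple zero along a great circle -/
def Cr {n : ℕ} (f : E n → ℝ) (y : E n) : Prop :=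
  ‖y‖ = 1 / 2 ∧ f y = 0 ∧ ∃ (e : E n) (D : ℝ), ‖e‖ = 1 / 2 ∧ inner ℝ y e = 0 ∧ D ≠ 0 ∧
    HasDerivAt (fun t => f (gam y e t)) D 0

theorem ev_diff {n : ℕ} (p : MvPolynomial (Fin n) ℝ) (x : E n) : DifferentiableAt ℝ (ev p) x :=
  (ev_contDiff p 1).differentiable one_ne_zero x

theorem Cr.zero {n : ℕ} {f : E n → ℝ} {y : E n} (h : Cr f y) {p : MvPolynomial (Fin n) ℝ}
    (hp : ∀ x, ‖x‖ = 1 / 2 → 0 ≤ ev p x * f x) : ev p y = 0 := by
  obtain ⟨hy, h0, e, D, he, hye, hD, hd⟩ := h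
  have h1 := (gam_comp (ev_diff p y) e).fun_mul hd
  have h2 : IsLocalMin (fun t => ev p (gam y e t) * f (gam y e t)) 0 :=
    Eventually.of_forall fun t => by
      simp only [gam_zero, h0, mul_zero]
      exact hp _ (gam_norm hy he hye t)
  have h3 := h2.hasDerivAt_eq_zero h1
  rw [gam_zero, h0, mul_zero, zero_add] at h3
  exact (mul_eq_zero.1 h3).resolve_right hD

theorem Cr.signs {n : ℕ} {f : E n → ℝ} {y : E n} (h : Cr f y) : Signs f := by
  constructor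
  · by_contra hc
    push Not at hc
    have := h.zero (p := -1) fun x hx => by simpa [ev] using hc x hx
    simp [ev] at this
  · by_contra hc
    push Not at hc
    have := h.zero (p := 1) fun x hx => by simpa [ev] using hc x hx
    simp [ev] at this

theorem Cr.add {n : ℕ} {f g : E n → ℝ} {y : E n} (h : Cr f y) {b c : MvPolynomial (Fin n) ℝ}
    (hb : ∀ x, 0 ≤ ev b x) (hb0 : ev b y = 0)
    (hg : ∀ x, ‖x‖ = 1 / 2 → g x = f x + ev b x * ev c x) : Cr g y := by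
  obtain ⟨hy, h0, e, D, he, hye, hD, hd⟩ := h
  refine ⟨hy, by rw [hg y hy, h0, hb0]; simp, e, D, he, hye, hD, ?_⟩
  have h1 := gam_comp (ev_diff b y) e
  have h2 : IsLocalMin (fun t => ev b (gam y e t)) 0 :=
    Eventually.of_forall fun t => by simp only [gam_zero, hb0]; exact hb _
  have h3 := hd.fun_add (h1.fun_mul (gam_comp (ev_diff c y) e))
  rw [h2.hasDerivAt_eq_zero h1, gam_zero, hb0, zero_mul, zero_mul, add_zero, add_zero] at h3
  rwa [show (fun t => g (gam y e t)) = _ from funext fun t => hg _ (gam_norm hy he hye t)]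

/-- small harmonic perturbations -/
def Sml {n : ℕ} (M : ℕ) (η : ℝ) (h : E n → ℝ) : Prop :=
  ContDiff ℝ M h ∧ HarmonicOnNhd h (ball 0 1) ∧ ∀ k ≤ M, ∀ x, ‖iteratedFDeriv ℝ k h x‖ ≤ η

theorem Sml.add {n M : ℕ} {η η' : ℝ} {h h' : E n → ℝ} (a : Sml M η h) (b : Sml M η' h') :
    Sml M (η + η') (h + h') := by
  refine ⟨a.1.add b.1, a.2.1.add b.2.1, fun k hk x => ?_⟩
  have hk' : (k : WithTop ℕ∞) ≤ M := by exact_mod_cast hk
  rw [iteratedFDeriv_add_apply (a.1.of_le hk').contDiffAt (b.1.of_le hk').contDiffAt]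
  exact norm_add_le_of_le (a.2.2 k hk x) (b.2.2 k hk x)

theorem sml_zero {n M : ℕ} {η : ℝ} (h : 0 ≤ η) : Sml M η (0 : E n → ℝ) :=
  ⟨contDiff_const, harmonicOnNhd_const 0, fun k _ x => by simpa using h⟩

theorem sml_poly {m : ℕ} (M : ℕ) (b : MvPolynomial (Fin (m + 1)) ℝ) {η : ℝ} (hη : 0 < η) :
    ∃ δ, 0 < δ ∧ ∀ s, |s| ≤ δ → ∃ h : E (m + 1) → ℝ, Sml M η h ∧
      ∀ x, ‖x‖ = 1 / 2 → h x = s * ev b x := by
  obtain ⟨u, hu, he⟩ := ext_poly (R := 2) (harmonicOnNhd_const (1 : ℝ)) b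
  obtain ⟨U, h1, h2, h3, -⟩ := harm_cut hu (ρ := 1) one_pos one_lt_two
  have hb : ∀ k : ℕ, ∃ C, ∀ x, ‖iteratedFDeriv ℝ k U x‖ ≤ C := fun k =>
    (h2.iteratedFDeriv k).exists_bound_of_continuous
      ((sm_le h1 k).continuous_iteratedFDeriv le_rfl)
  choose C hC using hb
  have hC0 : ∀ k, 0 ≤ C k := fun k => (norm_nonneg _).trans (hC k 0)
  set B := 1 + ∑ k ∈ Finset.range (M + 1), C k with hB
  have hB0 : 0 < B := by
    have := Finset.sum_nonneg fun k (_ : k ∈ Finset.range (M + 1)) => hC0 k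
    linarith
  refine ⟨η / B, by positivity, fun s hs => ⟨s • U, ⟨(sm_le h1 M).const_smul s,
    fun x hx => HarmonicAt.const_smul ((harmonicAt_congr_nhds (h3 x hx)).2
      (hu x (ball_subset_ball one_le_two hx))), fun k hk x => ?_⟩, fun x hx => ?_⟩⟩
  · rw [iteratedFDeriv_const_smul_apply (sm_le h1 k).contDiffAt, norm_smul, Real.norm_eq_abs]
    have h4 := Finset.single_le_sum (f := C) (fun k _ => hC0 k)
      (Finset.mem_range.2 (Nat.lt_succ_of_le hk))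
    calc _ ≤ η / B * B := by
          gcongr
          linarith [hC k x]
      _ = η := div_mul_cancel₀ _ hB0.ne'
  · rw [Pi.smul_apply, (h3 x (by rw [mem_ball_zero_iff, hx]; norm_num)).eq_of_nhds, he x hx]
    simp

theorem exists_bump {n : ℕ} (F : Finset (E n)) : ∃ b : MvPolynomial (Fin n) ℝ,
    (∀ x, 0 ≤ ev b x) ∧ ∀ x, ev b x = 0 ↔ x ∈ F := by
  have e : ∀ x : E n, ev (∏ y ∈ F, ∑ i, (X i - C (y i)) ^ 2) x = ∏ y ∈ F, ‖x - y‖ ^ 2 := by
    intro x
    simp [ev, EuclideanSpace.norm_sq_eq]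
  refine ⟨∏ y ∈ F, ∑ i, (X i - C (y i)) ^ 2, fun x => ?_, fun x => ?_⟩
  · rw [e]; positivity
  · rw [e]
    simp [Finset.prod_eq_zero_iff, sub_eq_zero]

theorem step {m : ℕ} (hm : 2 ≤ m) (M : ℕ) {v : E (m + 1) → ℝ} (hv : HarmonicOnNhd v (ball 0 1))
    (hs : Signs v) (F : Finset (E (m + 1))) (hF : ∀ y ∈ F, Cr v y)
    {p : MvPolynomial (Fin (m + 1)) ℝ} (hp : ¬∀ x, ‖x‖ = 1 / 2 → ev p x = 0) {η : ℝ}
    (hη : 0 < η) : ∃ h y, Sml M η h ∧ ev p y ≠ 0 ∧ Cr (v + h) y ∧ ∀ z ∈ F, Cr (v + h) z := by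
  obtain ⟨b, hb, hb0⟩ := exists_bump F
  obtain ⟨δ, hδ, h1⟩ := sml_poly M b (half_pos hη)
  obtain ⟨y0, hy0, hy1, hy2⟩ := zero_off hm hv hs F.finite_toSet fun y hy => (hF y hy).2.1
  have hin : ∀ x : E (m + 1), ‖x‖ = 1 / 2 → x ∈ ball (0 : E (m + 1)) 1 := fun x hx => by
    rw [mem_ball_zero_iff, hx]; norm_num
  have hev : ∀ᶠ x in 𝓝 y0, |v x| < δ * ev b x := by
    refine ContinuousAt.eventually_lt (hv y0 (hin y0 hy0)).1.continuousAt.abs
      (continuous_const.mul (ev_cont b)).continuousAt ?_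
    rw [hy2, abs_zero]
    exact mul_pos hδ ((hb y0).lt_of_ne' fun h => hy1 ((hb0 y0).1 h))
  obtain ⟨y, hy, hpy, hvy⟩ : ∃ y, ‖y‖ = 1 / 2 ∧ ev p y ≠ 0 ∧ |v y| < δ * ev b y := by
    by_contra hc
    refine hp (sphere_ident (by omega) hy0 ?_)
    filter_upwards [hev] with x hx h2
    by_contra h3
    exact hc ⟨x, h2, h3, hx⟩
  have hby : 0 < ev b y := pos_of_mul_pos_right ((abs_nonneg _).trans_lt hvy) hδ.le
  set s := -v y / ev b y with hsd
  obtain ⟨g1, a1, a2⟩ := h1 s (by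
    rw [hsd, abs_div, abs_neg, abs_of_pos hby, div_le_iff₀ hby]; exact hvy.le)
  obtain ⟨e, he, hye⟩ : ∃ e : E (m + 1), ‖e‖ = 1 / 2 ∧ inner ℝ y e = 0 := by
    have h0 : y ≠ 0 := fun h => by rw [h, norm_zero] at hy; norm_num at hy
    have : Nontrivial (ℝ ∙ y)ᗮ := Module.nontrivial_of_finrank_pos (R := ℝ) (by
      rw [orth_rank h0]; omega)
    obtain ⟨e, he⟩ := exists_norm_eq (ℝ ∙ y)ᗮ (c := 1 / 2) (by norm_num)
    exact ⟨e, he, Submodule.mem_orthogonal_singleton_iff_inner_right.1 e.2⟩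
  set l : MvPolynomial (Fin (m + 1)) ℝ := ∑ i, C (e i) * X i with hl
  have hle : ∀ x, ev l x = inner ℝ x e := fun x => by
    simp [hl, ev, PiLp.inner_apply]
  obtain ⟨δ', hδ', h2⟩ := sml_poly M (b * l) (half_pos hη)
  have d1 := gam_comp ((hv y (hin y hy)).1.differentiableAt two_ne_zero) e
  have d2 := gam_comp (ev_diff b y) e
  have d3 : HasDerivAt (fun t => ev l (gam y e t)) (1 / 4) 0 := by
    simp only [hle]
    refine ((gam_deriv y e).inner ℝ (hasDerivAt_const 0 e)).congr_deriv ?_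
    simp [he]
    norm_num
  obtain ⟨t, ht, ht'⟩ : ∃ t, |t| ≤ δ' ∧
      fderiv ℝ v y e + (fderiv ℝ (ev b) y e * s + ev b y * (t * (1 / 4))) ≠ 0 := by
    by_cases h : fderiv ℝ v y e + fderiv ℝ (ev b) y e * s = 0
    · refine ⟨δ', (abs_of_pos hδ').le, ?_⟩
      rw [← add_assoc, h, zero_add]
      positivity
    · exact ⟨0, by simpa using hδ'.le, by simpa using h⟩
  obtain ⟨g2, a3, a4⟩ := h2 t ht
  have hg : ∀ x, ‖x‖ = 1 / 2 → (v + (g1 + g2)) x = v x + ev b x * (s + t * ev l x) := by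
    intro x hx
    simp only [Pi.add_apply, a2 x hx, a4 x hx, ev, map_mul]
    ring
  refine ⟨g1 + g2, y, by simpa using a1.add a3, hpy, ⟨hy, ?_, e, _, he, hye, ht', ?_⟩,
    fun z hz => (hF z hz).add (c := C s + C t * l) hb ((hb0 z).2 hz) fun x hx => ?_⟩
  · rw [hg y hy, hle, hye, hsd]
    field_simp
    ring
  · rw [show (fun τ => (v + (g1 + g2)) (gam y e τ)) = _ from
      funext fun τ => hg _ (gam_norm hy he hye τ)]
    refine (d1.fun_add (d2.fun_mul ((d3.const_mul t).const_add s))).congr_deriv ?_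
    rw [gam_zero, hle, hye]
    ring
  · rw [hg x hx]
    simp [ev]

end Pool.Agent.P.MP_a2f83a_an.Sd
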