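import Pool.Agent.P.MP_a2f83a_an.SdGreedy

set_option autoImplicit false

namespace Pool.Agent.P.MP_a2f83a_an.Sd

open MeasureTheory Metric Set Filter Topology MvPolynomial InnerProductSpace Laplacian Asymptotics

/-- no nonzero polynomial of degree at most `d` has the sign of `f` -/
def Strong {n : ℕ} (d : ℕ) (f : E n → ℝ) : Prop :=
  ∀ p : MvPolynomial (Fin n) ℝ, p.totalDegree ≤ d → (∀ x, ‖x‖ = 1 / 2 → 0 ≤ ev p x * f x) →
    ∀ x, ‖x‖ = 1 / 2 → ev p x = 0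

/-- polynomials of degree at most `d` vanishing on a finite set -/
def van {n : ℕ} (d : ℕ) (F : Finset (E n)) :
    Submodule ℝ (restrictTotalDegree (Fin n) ℝ d) where
  carrier := {p | ∀ y ∈ F, ev (p : MvPolynomial (Fin n) ℝ) y = 0}
  add_mem' := fun {a b} ha hb y hy => by
    have h1 := ha y hy
    have h2 := hb y hy
    simp only [ev] at h1 h2
    simp [ev, h1, h2]
  zero_mem' := fun y _ => by simp [ev]
  smul_mem' := fun c a ha y hy => by
    have h1 := ha y hy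
    simp only [ev] at h1
    simp [ev, h1]

theorem greedy {m : ℕ} (hm : 2 ≤ m) (M d : ℕ) (j : ℕ) : ∀ (v : E (m + 1) → ℝ)
    (F : Finset (E (m + 1))) (η : ℝ), HarmonicOnNhd v (ball 0 1) → Signs v →
      (∀ y ∈ F, Cr v y) → 0 < η → Module.finrank ℝ (van d F) = j →
      ∃ h, Sml M η h ∧ Signs (v + h) ∧ Strong d (v + h) := by
  classical
  induction j using Nat.strong_induction_on with
  | _ j ih =>
  intro v F η hv hs hF hη hj
  by_cases hc : ∀ p ∈ van d F, ∀ x, ‖x‖ = 1 / 2 → ev (p : MvPolynomial (Fin (m + 1)) ℝ) x = 0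
  · refine ⟨0, sml_zero hη.le, by simpa using hs, fun p hp H => ?_⟩
    rw [add_zero] at H
    exact hc ⟨p, (mem_restrictTotalDegree _ _ _).2 hp⟩ fun y hy => (hF y hy).zero H
  · rw [not_forall₂] at hc
    obtain ⟨p, hp, hc⟩ := hc
    obtain ⟨h, y, a1, a2, a3, a4⟩ := step hm M hv hs F hF hc (half_pos hη)
    have hlt : van d (insert y F) < van d F :=
      lt_of_le_of_ne (fun q hq z hz => hq z (Finset.mem_insert_of_mem hz)) fun e => by
        rw [← e] at hp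
        exact a2 (hp y (Finset.mem_insert_self y F))
    obtain ⟨h', b1, b2, b3⟩ := ih _ (hj ▸ Submodule.finrank_lt_finrank_of_lt hlt) (v + h)
      (insert y F) (η / 2) (hv.add a1.2.1) a3.signs
      (fun z hz => (Finset.mem_insert.1 hz).elim (fun e => e ▸ a3) (a4 z)) (half_pos hη) rfl
    rw [add_assoc] at b2 b3
    exact ⟨h + h', by simpa using a1.add b1, b2, b3⟩

theorem Strong.isOpen {n d : ℕ} {f : E n → ℝ} (hf : HarmonicOnNhd f (ball 0 1))
    (h : Strong d f) : ∃ κ, 0 < κ ∧ ∀ g : E n → ℝ, (∀ x, ‖x‖ = 1 / 2 → |g x - f x| ≤ κ) →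
      Strong d g := by
  let W : Submodule ℝ C(Sp n, ℝ) := (restrictTotalDegree (Fin n) ℝ d).map (RR n).toLinearMap
  let q : C(Sp n, ℝ) := ⟨_, half_cont hf⟩
  have hq : ∀ θ, q θ = f ((1 / 2 : ℝ) • (θ : E n)) := fun _ => rfl
  let ng : C(ℝ, ℝ) := ⟨fun t => t ⊓ 0, by fun_prop⟩
  have hng : ∀ t, ng t = t ⊓ 0 := fun _ => rfl
  obtain ⟨κ, hκ, hK⟩ := (isCompact_sphere (0 : W) 1).exists_forall_le'
    (f := fun φ : W => ‖ng.comp ((φ : C(Sp n, ℝ)) * q)‖) (a := 0) (Continuous.continuousOn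
      ((ContinuousMap.continuous_postcomp ng).comp
        (continuous_subtype_val.mul continuous_const)).norm) (by
      rintro ⟨_, p, hp, rfl⟩ hφ
      rw [norm_pos_iff]
      intro h0
      have h1 := h p ((mem_restrictTotalDegree _ _ _).1 hp) fun x hx => by
        obtain ⟨θ, rfl⟩ := half_surj hx
        have := ContinuousMap.congr_fun h0 θ
        simp only [ContinuousMap.comp_apply, ContinuousMap.mul_apply, ContinuousMap.zero_apply,
          hng, inf_eq_right, AlgHom.toLinearMap_apply, RR_apply, hq] at this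
        exact this
      have h2 : RR n p = 0 := by
        ext θ
        rw [RR_apply, h1 _ (half_norm θ), ContinuousMap.zero_apply]
      simp [h2] at hφ)
  refine ⟨κ / 2, half_pos hκ, fun g hg p hp H => ?_⟩
  by_contra hc
  have hne : RR n p ≠ 0 := fun h0 => hc fun x hx => by
    obtain ⟨θ, rfl⟩ := half_surj hx
    rw [← RR_apply, h0, ContinuousMap.zero_apply]
  have hN : 0 < ‖RR n p‖ := norm_pos_iff.2 hne
  have h1 := hK ⟨‖RR n p‖⁻¹ • RR n p, W.smul_mem _ ⟨p, (mem_restrictTotalDegree _ _ _).2 hp, rfl⟩⟩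
    (by simp [norm_smul, hN.ne'])
  have h2 : ‖ng.comp (‖RR n p‖⁻¹ • RR n p * q)‖ ≤ κ / 2 := by
    rw [ContinuousMap.norm_le _ (half_pos hκ).le]
    intro θ
    simp only [ContinuousMap.comp_apply, ContinuousMap.mul_apply, hng,
      ContinuousMap.smul_apply, smul_eq_mul, hq, Real.norm_eq_abs]
    have a1 := H _ (half_norm θ)
    have a2 := hg _ (half_norm θ)
    have a3 : |RR n p θ| ≤ ‖RR n p‖ := (RR n p).norm_coe_le_norm θ
    rw [← RR_apply] at a1
    have a4 : |RR n p θ * (g ((1 / 2 : ℝ) • (θ : E n)) - f ((1 / 2 : ℝ) • (θ : E n)))| ≤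
        ‖RR n p‖ * (κ / 2) := by
      rw [abs_mul]; gcongr
    have a5 : -(κ / 2) ≤ ‖RR n p‖⁻¹ * RR n p θ * f ((1 / 2 : ℝ) • (θ : E n)) := by
      rw [mul_assoc, ← div_eq_inv_mul, le_div_iff₀ hN]
      linarith [(abs_le.1 a4).2]
    rw [abs_le]
    exact ⟨le_inf a5 (by linarith), inf_le_right.trans (by linarith)⟩
  linarith

theorem sml_tsum {n M : ℕ} (hM : 2 ≤ M) {a : ℝ} {h : ℕ → E n → ℝ}
    (H : ∀ j, Sml M (a / 2 / 2 ^ j) (h j)) : Sml M a fun x => ∑' j, h j x := by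
  have h1 : ∀ j, ContDiff ℝ (M : ℕ∞) (h j) := fun j => (H j).1
  have h2 : ∀ k : ℕ, (k : ℕ∞) ≤ M → Summable fun j : ℕ => a / 2 / 2 ^ j := fun _ _ =>
    (hasSum_geometric_two' a).summable
  have h3 : ∀ (k : ℕ) (j : ℕ) (x : E n), (k : ℕ∞) ≤ M →
      ‖iteratedFDeriv ℝ k (h j) x‖ ≤ a / 2 / 2 ^ j := fun k j x hk =>
    (H j).2.2 k (by exact_mod_cast hk) x
  have h4 := contDiff_tsum (v := fun _ j => a / 2 / 2 ^ j) h1 h2 h3
  have h5 := fun k hk x => iteratedFDeriv_tsum_apply (v := fun _ j => a / 2 / 2 ^ j) h1 h2 h3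
    (k := k) hk x
  have hM' : ((2 : ℕ) : ℕ∞) ≤ M := by exact_mod_cast hM
  refine ⟨h4, fun x hx => ⟨(h4.of_le (WithTop.coe_le_coe.2 hM')).contDiffAt, ?_⟩, fun k hk x => ?_⟩
  · filter_upwards [isOpen_ball.mem_nhds hx] with y hy
    have s1 : Summable fun j => iteratedFDeriv ℝ 2 (h j) y :=
      Summable.of_norm_bounded (h2 2 hM') fun j => h3 2 j y hM'
    have s2 := hasSum_sum (s := Finset.univ) fun i _ => s1.hasSum.mapL
      (ContinuousMultilinearMap.apply ℝ _ ℝ ![EuclideanSpace.basisFun (Fin n) ℝ i,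
        EuclideanSpace.basisFun (Fin n) ℝ i])
    have s3 : ∀ j, Δ (h j) y = 0 := fun j => ((H j).2.1 y hy).2.eq_of_nhds
    simp only [laplacian_eq_iteratedFDeriv_orthonormalBasis _ (EuclideanSpace.basisFun (Fin n) ℝ)]
      at s3 ⊢
    simp only [ContinuousMultilinearMap.apply_apply, s3] at s2
    rw [h5 2 hM' y]
    exact s2.unique hasSum_zero
  · rw [h5 k (by exact_mod_cast hk) x]
    exact tsum_of_norm_bounded (hasSum_geometric_two' a) fun j =>
      h3 k j x (by exact_mod_cast hk)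

theorem Sml.mono {n M : ℕ} {η η' : ℝ} {h : E n → ℝ} (a : Sml M η h) (b : η ≤ η') : Sml M η' h :=
  ⟨a.1, a.2.1, fun k hk x => (a.2.2 k hk x).trans b⟩

theorem Sml.abs_le {n M : ℕ} {η : ℝ} {h : E n → ℝ} (a : Sml M η h) (x : E n) : |h x| ≤ η := by
  have := a.2.2 0 (Nat.zero_le M) x
  rwa [norm_iteratedFDeriv_zero] at this

/-- a small perturbation whose sign pattern excludes polynomials of every degree -/
theorem dense_strong {m M : ℕ} (hm : 2 ≤ m) (hM : 2 ≤ M) {v : E (m + 1) → ℝ}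
    (hv : HarmonicOnNhd v (ball 0 1)) (hs : Signs v) {ε : ℝ} (hε : 0 < ε) :
    ∃ h, Sml M ε h ∧ ∀ d, Strong d (v + h) := by
  let St := {z : (E (m + 1) → ℝ) × ℝ // HarmonicOnNhd z.1 (ball 0 1) ∧ Signs z.1 ∧ 0 < z.2}
  have hst : ∀ (d : ℕ) (z : St), ∃ (z' : St) (h : E (m + 1) → ℝ), Sml M (z.1.2 / 2) h ∧
      z'.1.1 = z.1.1 + h ∧ z'.1.2 ≤ z.1.2 / 2 ∧ ∀ g : E (m + 1) → ℝ,
        (∀ x, ‖x‖ = 1 / 2 → |g x - z'.1.1 x| ≤ z'.1.2) → Strong d g := by
    rintro d ⟨⟨f, η⟩, h1, h2, h3⟩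
    obtain ⟨h, a1, a2, a3⟩ := greedy hm M d _ f ∅ (η / 2) h1 h2 (by simp) (half_pos h3) rfl
    obtain ⟨κ, b1, b2⟩ := a3.isOpen (h1.add a1.2.1)
    exact ⟨⟨(f + h, min (η / 2) κ), h1.add a1.2.1, a2, lt_min (half_pos h3) b1⟩, h, a1, rfl,
      min_le_left _ _, fun g hg => b2 g fun x hx => (hg x hx).trans (min_le_right _ _)⟩
  choose nx hh c1 c2 c3 c4 using hst
  let z : ℕ → St := fun j => Nat.rec ⟨(v, ε), hv, hs, hε⟩ (fun d y => nx d y) j
  have hz : ∀ j, z (j + 1) = nx j (z j) := fun _ => rfl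
  let h : ℕ → E (m + 1) → ℝ := fun j => hh j (z j)
  have e1 : ∀ i j, (z (j + i)).1.2 ≤ (z i).1.2 / 2 ^ j := by
    intro i j
    induction j with
    | zero => simp
    | succ j ih =>
      rw [show j + 1 + i = j + i + 1 by ring, hz, pow_succ, ← div_div]
      linarith [c3 (j + i) (z (j + i))]
  have e2 : ∀ i j, Sml M ((z i).1.2 / 2 / 2 ^ j) (h (j + i)) := fun i j =>
    (c1 _ _).mono (by rw [div_right_comm]; linarith [e1 i j])
  have e3 : ∀ i x, (z i).1.1 x = v x + ∑ j ∈ Finset.range i, h j x := by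
    intro i x
    induction i with
    | zero => simp [z]
    | succ i ih => rw [hz, c2, Pi.add_apply, ih, Finset.sum_range_succ, add_assoc]
  refine ⟨_, sml_tsum hM (e2 0), fun d => c4 d (z d) _ fun x _ => ?_⟩
  have s1 : Summable fun j => h j x :=
    Summable.of_norm_bounded (hasSum_geometric_two' _).summable fun j => (e2 0 j).abs_le x
  rw [← hz, e3 (d + 1) x, Pi.add_apply]
  simp only [add_zero]
  rw [← s1.sum_add_tsum_nat_add (d + 1), add_sub_add_left_eq_sub, add_sub_cancel_left]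
  exact (sml_tsum hM (e2 (d + 1))).abs_le x

theorem dense_orders {m : ℕ} (hm : 2 ≤ m) (M : ℕ) {v : E (m + 1) → ℝ}
    (hv : HarmonicOnNhd v (ball 0 1)) (hs : Signs v) {ε : ℝ} (hε : 0 < ε) :
    ∃ h : E (m + 1) → ℝ, ContDiff ℝ 2 h ∧ HarmonicOnNhd h (ball 0 1) ∧
      (∀ k ≤ M, ∀ x, ‖iteratedFDeriv ℝ k h x‖ ≤ ε) ∧ ∀ N : ℕ, ∃ u : E (m + 1) → ℝ,
        HarmonicOnNhd u (ball 0 1) ∧ (∀ k < N, iteratedFDeriv ℝ k u 0 = 0) ∧
        ∀ x, ‖x‖ = 1 / 2 → SignType.sign (u x) = SignType.sign (v x + h x) := by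
  obtain ⟨h, a1, a2⟩ := dense_strong (M := M + 2) hm (by omega) hv hs hε
  refine ⟨h, a1.1.of_le (by exact_mod_cast Nat.le_add_left 2 M), a1.2.1,
    fun k hk => a1.2.2 k (by omega), fun N => ?_⟩
  exact (duality (hv.add a1.2.1)).2 fun p hp H x hx => by rw [a2 N p hp.le H x hx, zero_mul]

end Pool.Agent.P.MP_a2f83a_an.Sd
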