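import Pool.Agent.P.MP_a2f83a_an.SdPolar

set_option autoImplicit false

namespace Pool.Agent.P.MP_a2f83a_an.Sd

open MeasureTheory Metric Set Filter Topology MvPolynomial InnerProductSpace Laplacian Asymptotics

theorem sph_int {n : ℕ} {f : Sp n → ℝ} (hf : Continuous f) : Integrable f (sg n) :=
  hf.integrable_of_hasCompactSupport (HasCompactSupport.of_compactSpace f)

theorem sph_cont {n : ℕ} {F : ℝ → Sp n → ℝ} (hF : Continuous F.uncurry) :
    Continuous fun r => ∫ ω, F r ω ∂sg n := by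
  simpa using continuous_parametric_integral_of_continuous (μ := sg n) hF isCompact_univ

theorem sph_deriv {n : ℕ} {U : E n → ℝ} (hU : ContDiff ℝ 1 U) {f : E n → ℝ} (hf : Continuous f)
    (r : ℝ) : HasDerivAt (fun t : ℝ => ∫ ω : Sp n, U (t • (ω : E n)) * f ω ∂sg n)
      (∫ ω : Sp n, fderiv ℝ U (r • (ω : E n)) ω * f ω ∂sg n) r := by
  have cU := hU.continuous
  have cD := hU.continuous_fderiv one_ne_zero
  have c1 : Continuous fun z : ℝ × Sp n => fderiv ℝ U (z.1 • (z.2 : E n)) z.2 * f z.2 := by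
    fun_prop
  obtain ⟨M, hM⟩ := ((isCompact_closedBall r 1).prod
    (isCompact_univ (X := Sp n))).exists_bound_of_continuousOn c1.continuousOn
  refine (hasDerivAt_integral_of_dominated_loc_of_deriv_le (μ := sg n)
    (F := fun (t : ℝ) (ω : Sp n) => U (t • (ω : E n)) * f ω)
    (F' := fun (t : ℝ) (ω : Sp n) => fderiv ℝ U (t • (ω : E n)) ω * f ω)
    (bound := fun _ => M) (closedBall_mem_nhds r one_pos)
    (Eventually.of_forall fun t => Continuous.aestronglyMeasurable (by fun_prop))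
    (sph_int (by fun_prop)) (Continuous.aestronglyMeasurable (by fun_prop))
    (Eventually.of_forall fun ω t ht => hM (t, ω) ⟨ht, mem_univ _⟩) (integrable_const M)
    (Eventually.of_forall fun ω t _ => ?_)).2
  have h1 : HasDerivAt (fun s : ℝ => s • (ω : E n)) (ω : E n) t := by
    simpa using (hasDerivAt_id t).smul_const (ω : E n)
  exact ((hU.differentiable one_ne_zero _).hasFDerivAt.comp_hasDerivAt t h1).mul_const _

theorem polar_weight {m : ℕ} {F : E (m + 1) → ℝ} (hF : Continuous F) {ρ : ℝ} (hρ : 0 < ρ)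
    {w : ℝ → ℝ} (hw : Continuous w) (hw0 : ∀ s, ρ ^ 2 ≤ s → w s = 0) :
    ∫ x, F x * w (‖x‖ ^ 2) = ∫ r in Ioi (0 : ℝ), r ^ m * (w (r ^ 2) *
      ∫ ω : Sp (m + 1), F (r • (ω : E (m + 1))) ∂sg (m + 1)) := by
  rw [polar (Continuous.integrable_of_hasCompactSupport (by fun_prop) (supp_weight hρ hw0 F))]
  refine setIntegral_congr_fun measurableSet_Ioi fun r _ => ?_
  simp only [norm_smul, norm_sp, mul_one, Real.norm_eq_abs, sq_abs]
  rw [integral_mul_const, mul_comm (w _)]

/-- the radial differential equation -/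
theorem ode_step {m k : ℕ} {U : E (m + 1) → ℝ} (hU : ContDiff ℝ 2 U) {ρ : ℝ} (hρ : 0 < ρ)
    (hΔ : ∀ x ∈ ball (0 : E (m + 1)) ρ, Δ U x = 0) {p : MvPolynomial (Fin (m + 1)) ℝ}
    (hp : p.IsHomogeneous k)
    (H : ∀ r ∈ Ioo 0 ρ, ∫ ω : Sp (m + 1), U (r • (ω : E (m + 1))) *
      ev (lap p) (r • (ω : E (m + 1))) ∂sg (m + 1) = 0) :
    ∃ c, ∀ r ∈ Ioo 0 ρ,
      ∫ ω : Sp (m + 1), U (r • (ω : E (m + 1))) * ev p ω ∂sg (m + 1) = c * r ^ k := by
  have hU1 : ContDiff ℝ 1 U := hU.of_le (by norm_num)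
  have cU := hU.continuous
  have cD := hU1.continuous_fderiv one_ne_zero
  have cp := ev_cont p
  have cl := ev_cont (lap p)
  set F : E (m + 1) → ℝ := fun x => fderiv ℝ U x x * ev p x - k * (U x * ev p x) with hF
  have cF : Continuous F := by fun_prop
  set ψ : ℝ → ℝ := fun r => ∫ ω : Sp (m + 1), F (r • (ω : E (m + 1))) ∂sg (m + 1) with hψ
  have cψ : Continuous ψ := sph_cont (by fun_prop)
  set w : ℝ → ℝ := fun s => ψ (√s) * max 0 (ρ ^ 2 - s) with hw
  have cw : Continuous w := by fun_prop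
  have hw0 : ∀ s, ρ ^ 2 ≤ s → w s = 0 := fun s hs => by
    simp only [hw]; rw [max_eq_left (by linarith), mul_zero]
  set W : ℝ → ℝ := fun s => ∫ t in (ρ ^ 2)..s, w t with hW
  have hWd : ∀ s, HasDerivAt W (w s) s := fun s => (cw.integral_hasStrictDerivAt _ s).hasDerivAt
  have hW0 : ∀ s, ρ ^ 2 ≤ s → W s = 0 := fun s hs => by
    simp only [hW]
    rw [intervalIntegral.integral_congr (g := fun _ => 0), intervalIntegral.integral_zero]
    intro t ht
    rw [uIcc_of_le hs] at ht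
    exact hw0 t ht.1
  have cW : Continuous W := continuous_iff_continuousAt.2 fun s => (hWd s).continuousAt
  have g := green hU hρ hΔ hp hWd cw hW0 hw0
  rw [polar_weight cF hρ cw hw0, polar_weight (by fun_prop) hρ cW hW0] at g
  have z : ∫ r in Ioi (0 : ℝ), r ^ m * (W (r ^ 2) * ∫ ω : Sp (m + 1), U (r • (ω : E (m + 1))) *
      ev (lap p) (r • (ω : E (m + 1))) ∂sg (m + 1)) = 0 := by
    refine setIntegral_eq_zero_of_forall_eq_zero fun r hr => ?_
    rcases lt_or_ge r ρ with h | h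
    · rw [H r ⟨hr, h⟩]; simp
    · rw [hW0 _ (by gcongr)]; simp
  rw [z] at g
  set G : ℝ → ℝ := fun r => r ^ m * (w (r ^ 2) * ψ r) with hG
  have cG : Continuous G := by fun_prop
  have hGe : ∀ r, 0 < r → G r = r ^ m * ψ r ^ 2 * max 0 (ρ ^ 2 - r ^ 2) := fun r hr => by
    simp only [hG, hw, Real.sqrt_sq hr.le]; ring
  have iG : Integrable G := by
    refine cG.integrable_of_hasCompactSupport
      (HasCompactSupport.intro (isCompact_closedBall (0 : ℝ) ρ) fun r hr => ?_)
    rw [mem_closedBall_zero_iff, not_le] at hr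
    simp only [hG]
    rw [hw0 _ (by rw [← sq_abs r]; exact pow_le_pow_left₀ hρ.le hr.le 2)]; simp
  have g0 : ∫ r in Ioi (0 : ℝ), G r = 0 := by linarith
  rw [setIntegral_eq_zero_iff_of_nonneg_ae _ iG.integrableOn] at g0
  swap
  · filter_upwards [ae_restrict_mem measurableSet_Ioi] with r hr
    rw [Pi.zero_apply, hGe r hr]
    have : 0 < r := hr
    positivity
  have g1 := Measure.eqOn_open_of_ae_eq g0 isOpen_Ioi cG.continuousOn continuousOn_const
  have hψ0 : ∀ r ∈ Ioo 0 ρ, ψ r = 0 := by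
    intro r hr
    have h1 := g1 hr.1
    rw [hGe r hr.1, Pi.zero_apply] at h1
    have h2 : 0 < ρ ^ 2 - r ^ 2 := by nlinarith [hr.1, hr.2]
    rw [max_eq_right h2.le] at h1
    have h3 := (mul_eq_zero.1 h1).resolve_right h2.ne'
    exact pow_eq_zero_iff two_ne_zero |>.1 ((mul_eq_zero.1 h3).resolve_left (pow_pos hr.1 m).ne')
  set φ : ℝ → ℝ := fun r => ∫ ω : Sp (m + 1), U (r • (ω : E (m + 1))) * ev p ω ∂sg (m + 1) with hφ
  have hd : ∀ r ∈ Ioo 0 ρ, HasDerivAt (fun r => φ r / r ^ k) 0 r := by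
    intro r hr
    have d1 := sph_deriv hU1 cp r
    set φ' := ∫ ω : Sp (m + 1), fderiv ℝ U (r • (ω : E (m + 1))) ω * ev p ω ∂sg (m + 1) with hφ'
    have e1 : ψ r = r ^ k * (r * φ' - k * φ r) := by
      simp only [hψ, hF, hφ', hφ]
      rw [← integral_const_mul, ← integral_const_mul,
        ← integral_sub (sph_int (by fun_prop)) (sph_int (by fun_prop)), ← integral_const_mul]
      refine integral_congr_ae (Eventually.of_forall fun ω => ?_)
      simp only [ev_smul hp, map_smul, smul_eq_mul]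
      ring
    have hk : r ^ k ≠ 0 := (pow_pos hr.1 k).ne'
    have e2 : r * φ' - k * φ r = 0 := by
      rw [hψ0 r hr] at e1
      exact (mul_eq_zero.1 e1.symm).resolve_left hk
    refine (d1.fun_div (hasDerivAt_pow k r) hk).congr_deriv ?_
    rw [div_eq_zero_iff]
    left
    apply mul_left_cancel₀ hr.1.ne'
    have := pow_aux1 r k
    linear_combination r ^ k * e2 - φ r * this
  obtain ⟨c, hc⟩ := isOpen_Ioo.exists_is_const_of_deriv_eq_zero isPreconnected_Ioo
    (fun r hr => (hd r hr).differentiableAt.differentiableWithinAt) fun r hr => (hd r hr).deriv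
  refine ⟨c, fun r hr => ?_⟩
  rw [← hc r hr, div_mul_cancel₀ _ (pow_pos hr.1 k).ne']

theorem lap_homog {n k : ℕ} {p : MvPolynomial (Fin n) ℝ} (hp : p.IsHomogeneous (k + 2)) :
    (lap p).IsHomogeneous k :=
  IsHomogeneous.sum _ _ _ fun _ _ => by simpa using hp.pderiv.pderiv

theorem lap_low {n k : ℕ} {p : MvPolynomial (Fin n) ℝ} (hp : p.IsHomogeneous k) (hk : k < 2) :
    lap p = 0 := by
  refine Finset.sum_eq_zero fun i _ => ?_
  have h1 : (pderiv i p).IsHomogeneous 0 := by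
    have := hp.pderiv (i := i)
    rwa [show k - 1 = 0 by omega] at this
  rw [← homogeneousComponent_eq_self h1, homogeneousComponent_zero, pderiv_C]

/-- a harmonic function vanishing to order `N` is orthogonal on spheres to lower degrees -/
theorem orth_homog {m N : ℕ} {U : E (m + 1) → ℝ} (hU : ContDiff ℝ 2 U) {ρ : ℝ} (hρ : 0 < ρ)
    (hΔ : ∀ x ∈ ball (0 : E (m + 1)) ρ, Δ U x = 0) (hO : U =O[𝓝 0] fun x => ‖x‖ ^ N) :
    ∀ k, k < N → ∀ p : MvPolynomial (Fin (m + 1)) ℝ, p.IsHomogeneous k → ∀ r ∈ Ioo 0 ρ,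
      ∫ ω : Sp (m + 1), U (r • (ω : E (m + 1))) * ev p (r • (ω : E (m + 1))) ∂sg (m + 1) = 0 := by
  intro k
  induction k using Nat.strong_induction_on with
  | _ k ih =>
  intro hk p hp
  obtain ⟨c, hc⟩ := ode_step hU hρ hΔ hp (by
    intro r hr
    rcases lt_or_ge k 2 with h | h
    · simp [lap_low hp h, ev]
    · obtain ⟨j, rfl⟩ := Nat.exists_eq_add_of_le' h
      exact ih j (by omega) (by omega) _ (lap_homog hp) r hr)
  have cp := ev_cont p
  have hc0 : c = 0 := by
    obtain ⟨C, hC, hb⟩ := hO.exists_pos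
    obtain ⟨δ, hδ, hb⟩ := Metric.eventually_nhds_iff_ball.1 hb.bound
    set B := ∫ ω : Sp (m + 1), |ev p ω| ∂sg (m + 1) with hB
    have h1 : ∀ᶠ r in 𝓝[>] (0 : ℝ), |c| ≤ C * B * r ^ (N - k) := by
      filter_upwards [Ioo_mem_nhdsGT (lt_min hρ hδ)] with r hr
      have hr1 : r ∈ Ioo 0 ρ := ⟨hr.1, hr.2.trans_le (min_le_left _ _)⟩
      have h2 : |c * r ^ k| ≤ C * r ^ N * B := by
        rw [← hc r hr1, hB, ← integral_const_mul, ← Real.norm_eq_abs]
        refine norm_integral_le_of_norm_le (sph_int (by fun_prop))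
          (Eventually.of_forall fun ω => ?_)
        have h3 : ‖r • (ω : E (m + 1))‖ = r := by
          rw [norm_smul, norm_sp, mul_one, Real.norm_of_nonneg hr.1.le]
        have h4 := hb (r • (ω : E (m + 1))) (by
          rw [mem_ball_zero_iff, h3]; exact hr.2.trans_le (min_le_right _ _))
        rw [h3, Real.norm_of_nonneg (pow_nonneg hr.1.le _)] at h4
        rw [norm_mul, Real.norm_eq_abs (ev p _)]
        gcongr
      have hk' : 0 < r ^ k := pow_pos hr.1 k
      rw [abs_mul, abs_of_pos hk', show N = (N - k) + k by omega, pow_add] at h2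
      refine le_of_mul_le_mul_right ?_ hk'
      linarith
    have h5 : Tendsto (fun r : ℝ => C * B * r ^ (N - k)) (𝓝[>] 0) (𝓝 0) := by
      have : Tendsto (fun r : ℝ => C * B * r ^ (N - k)) (𝓝 0) (𝓝 (C * B * 0 ^ (N - k))) :=
        Continuous.tendsto (by fun_prop) 0
      rw [zero_pow (by omega), mul_zero] at this
      exact this.mono_left nhdsWithin_le_nhds
    exact abs_nonpos_iff.1 (ge_of_tendsto h5 h1)
  intro r hr
  have := hc r hr
  rw [hc0, zero_mul] at this
  simp only [ev_smul hp, mul_left_comm _ (r ^ k)]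
  rw [integral_const_mul, this, mul_zero]

theorem ev_sum {n : ℕ} {ι : Type*} (s : Finset ι) (p : ι → MvPolynomial (Fin n) ℝ) (x : E n) :
    ev (∑ i ∈ s, p i) x = ∑ i ∈ s, ev (p i) x := by simp [ev]

theorem orth_deg {m N : ℕ} {U : E (m + 1) → ℝ} (hU : ContDiff ℝ 2 U) {ρ : ℝ} (hρ : 0 < ρ)
    (hΔ : ∀ x ∈ ball (0 : E (m + 1)) ρ, Δ U x = 0) (hO : U =O[𝓝 0] fun x => ‖x‖ ^ N)
    {p : MvPolynomial (Fin (m + 1)) ℝ} (hp : p.totalDegree < N) {r : ℝ} (hr : r ∈ Ioo 0 ρ) :
    ∫ ω : Sp (m + 1), U (r • (ω : E (m + 1))) * ev p (r • (ω : E (m + 1))) ∂sg (m + 1) = 0 := by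
  have cU := hU.continuous
  rw [← sum_homogeneousComponent p]
  simp only [ev_sum, Finset.mul_sum]
  rw [integral_finsetSum]
  · refine Finset.sum_eq_zero fun k hk => orth_homog hU hρ hΔ hO k ?_ _
      (homogeneousComponent_isHomogeneous k p) r hr
    have := Finset.mem_range.1 hk
    omega
  · intro k _
    have := ev_cont (homogeneousComponent k p)
    exact sph_int (by fun_prop)

end Pool.Agent.P.MP_a2f83a_an.Sd
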