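import Pool.Agent.P.MP_a2f83a_an.Poly

set_option autoImplicit false

namespace Pool.Agent.P.MP_a2f83a_an.Sd

open MeasureTheory Metric Set Filter Topology MvPolynomial InnerProductSpace Laplacian

/-- Euclidean space -/
abbrev E (n : ℕ) := EuclideanSpace ℝ (Fin n)

/-- the unit sphere -/
abbrev Sp (n : ℕ) := sphere (0 : E n) 1

/-- surface measure on the unit sphere -/
noncomputable abbrev sg (n : ℕ) : Measure (Sp n) := (volume : Measure (E n)).toSphere

theorem norm_sp {n : ℕ} (ω : Sp n) : ‖(ω : E n)‖ = 1 := by simp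

theorem polar {m : ℕ} {F : E (m + 1) → ℝ} (hF : Integrable F) :
    ∫ x, F x = ∫ r in Ioi (0 : ℝ), r ^ m * ∫ ω : Sp (m + 1), F (r • (ω : E (m + 1))) ∂sg (m + 1) := by
  have mp := (volume : Measure (E (m + 1))).measurePreserving_homeomorphUnitSphereProd
  set G : Sp (m + 1) × Ioi (0 : ℝ) → ℝ := fun z => F ((z.2 : ℝ) • (z.1 : E (m + 1))) with hG
  have hc : (G ∘ homeomorphUnitSphereProd (E (m + 1))) = F ∘ Subtype.val := by
    funext x
    have hx : ‖x.1‖ ≠ 0 := norm_ne_zero_iff.2 x.2
    simp only [hG, Function.comp_apply, homeomorphUnitSphereProd_apply_snd_coe,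
      homeomorphUnitSphereProd_apply_fst_coe, smul_smul, mul_inv_cancel₀ hx, one_smul]
  have hGi : Integrable G ((sg (m + 1)).prod
      (Measure.volumeIoiPow (Module.finrank ℝ (E (m + 1)) - 1))) := by
    rw [← mp.integrable_comp_emb (Homeomorph.measurableEmbedding _), hc,
      ← integrableOn_iff_comap_subtypeVal (measurableSet_singleton _).compl]
    exact hF.integrableOn
  have e := mp.integral_comp (Homeomorph.measurableEmbedding _) G
  rw [integral_prod_symm _ hGi] at e
  conv_lhs => rw [← restrict_compl_singleton (μ := volume) 0,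
    ← integral_subtype_comap (measurableSet_singleton _).compl]
  refine Eq.trans (integral_congr_ae (Eventually.of_forall fun x => ?_)) (e.trans ?_)
  · exact (congrFun hc x).symm
  · simp only [Measure.volumeIoiPow, ENNReal.ofReal, finrank_euclideanSpace, Fintype.card_fin,
      Nat.add_sub_cancel, hG]
    rw [integral_withDensity_eq_integral_smul (measurable_subtype_coe.pow_const _).real_toNNReal,
      integral_subtype_comap measurableSet_Ioi fun a => Real.toNNReal (a ^ m) •
        ∫ ω : Sp (m + 1), F (a • (ω : E (m + 1))) ∂sg (m + 1)]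
    refine setIntegral_congr_fun measurableSet_Ioi fun x hx => ?_
    simp only [NNReal.smul_def, Real.coe_toNNReal _ (pow_nonneg (le_of_lt hx) _), smul_eq_mul]

theorem int_fderiv {n : ℕ} {F : E n → ℝ} (hF : ContDiff ℝ 1 F) (hc : HasCompactSupport F)
    (v : E n) : ∫ x, fderiv ℝ F x v = 0 := by
  have h1 : Continuous fun x => fderiv ℝ F x v :=
    (hF.continuous_fderiv one_ne_zero).clm_apply continuous_const
  have h2 : HasCompactSupport fun x => fderiv ℝ F x v := hc.fderiv_apply (𝕜 := ℝ) v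
  have := integral_mul_fderiv_eq_neg_fderiv_mul_of_integrable (μ := (volume : Measure (E n)))
    (f := fun _ => (1 : ℝ)) (g := F) (v := v) (by simp)
    (by simpa using h1.integrable_of_hasCompactSupport h2)
    (by simpa using hF.continuous.integrable_of_hasCompactSupport hc)
    (fun _ _ => differentiableAt_const _) (fun x _ => hF.differentiable one_ne_zero x)
  simpa using this

/-- the partial derivative in the direction of a coordinate -/
noncomputable def pd {n : ℕ} (i : Fin n) (f : E n → ℝ) (x : E n) : ℝ :=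
  fderiv ℝ f x (EuclideanSpace.single i (1 : ℝ))

theorem pd_contDiff {n : ℕ} (i : Fin n) {f : E n → ℝ} (hf : ContDiff ℝ 2 f) :
    ContDiff ℝ 1 (pd i f) :=
  (hf.fderiv_right (m := 1) (by norm_num)).clm_apply contDiff_const

theorem lap_eq_pd {n : ℕ} {f : E n → ℝ} (hf : ContDiff ℝ 2 f) (x : E n) :
    Δ f x = ∑ i, pd i (pd i f) x := by
  rw [laplacian_eq_iteratedFDeriv_orthonormalBasis _ (EuclideanSpace.basisFun (Fin n) ℝ)]
  refine Finset.sum_congr rfl fun i _ => ?_
  rw [iteratedFDeriv_two_apply]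
  simp only [Matrix.cons_val_zero, Matrix.cons_val_one, EuclideanSpace.basisFun_apply]
  have hd : DifferentiableAt ℝ (fderiv ℝ f) x :=
    (hf.fderiv_right (m := 1) (by norm_num)).differentiable one_ne_zero x
  unfold pd
  rw [fderiv_clm_apply hd (differentiableAt_const _)]
  simp

theorem fderiv_self_eq {n : ℕ} (f : E n → ℝ) (x y : E n) :
    fderiv ℝ f x y = ∑ i, y i * pd i f x := by
  conv_lhs => rw [← (EuclideanSpace.basisFun (Fin n) ℝ).sum_repr y]
  simp [map_sum, pd]

theorem pd_ev {n : ℕ} (i : Fin n) (p : MvPolynomial (Fin n) ℝ) :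
    pd i (ev p) = ev (pderiv i p) := funext fun x => ev_fderiv p i x

theorem euler {n k : ℕ} {p : MvPolynomial (Fin n) ℝ} (hp : p.IsHomogeneous k) (x : E n) :
    ∑ i, x i * ev (pderiv i p) x = k * ev p x := by
  have := congrArg (fun f => ev f x) hp.sum_X_mul_pderiv
  simpa [ev] using this

theorem ev_smul {n k : ℕ} {p : MvPolynomial (Fin n) ℝ} (hp : p.IsHomogeneous k) (t : ℝ)
    (x : E n) : ev p (t • x) = t ^ k * ev p x := by
  unfold ev
  rw [eval_eq', eval_eq', Finset.mul_sum]
  refine Finset.sum_congr rfl fun d hd => ?_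
  have h1 : ∑ i, d i = k := by
    have := hp (mem_support_iff.1 hd)
    rw [← this, Finsupp.weight_apply, Finsupp.sum_fintype _ _ (by simp)]
    simp
  simp only [PiLp.smul_apply, smul_eq_mul, mul_pow, Finset.prod_mul_distrib,
    Finset.prod_pow_eq_pow_sum, h1]
  ring

theorem ev_cont {n : ℕ} (p : MvPolynomial (Fin n) ℝ) : Continuous (ev p) :=
  (ev_contDiff p 0).continuous

theorem pd_weight {n : ℕ} (i : Fin n) {W w : ℝ → ℝ} (hW : ∀ s, HasDerivAt W (w s) s) (x : E n) :
    pd i (fun y => W (‖y‖ ^ 2)) x = 2 * x i * w (‖x‖ ^ 2) := by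
  have h := (hW (‖x‖ ^ 2)).comp_hasFDerivAt x (hasStrictFDerivAt_norm_sq x).hasFDerivAt
  unfold pd
  rw [show (fun y : E n => W (‖y‖ ^ 2)) = W ∘ fun y : E n => ‖y‖ ^ 2 from rfl, h.fderiv]
  simp [EuclideanSpace.inner_single_right]
  ring

theorem pd_mul {n : ℕ} (i : Fin n) {f g : E n → ℝ} {x : E n} (hf : DifferentiableAt ℝ f x)
    (hg : DifferentiableAt ℝ g x) :
    pd i (fun y => f y * g y) x = pd i f x * g x + f x * pd i g x := by
  unfold pd
  rw [fderiv_fun_mul hf hg]
  simp
  ring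

theorem pd_sub {n : ℕ} (i : Fin n) {f g : E n → ℝ} {x : E n} (hf : DifferentiableAt ℝ f x)
    (hg : DifferentiableAt ℝ g x) :
    pd i (fun y => f y - g y) x = pd i f x - pd i g x := by
  unfold pd
  rw [fderiv_fun_sub hf hg]
  simp

theorem supp_weight {n : ℕ} {ρ : ℝ} (hρ : 0 < ρ) {w : ℝ → ℝ} (hw : ∀ s, ρ ^ 2 ≤ s → w s = 0)
    (f : E n → ℝ) : HasCompactSupport fun x => f x * w (‖x‖ ^ 2) := by
  refine HasCompactSupport.intro (isCompact_closedBall (0 : E n) ρ) fun x hx => ?_
  rw [mem_closedBall_zero_iff, not_le] at hx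
  rw [hw _ (by gcongr), mul_zero]

/-- Green's identity against a radial weight -/
theorem green {n k : ℕ} {U : E n → ℝ} (hU : ContDiff ℝ 2 U) {ρ : ℝ} (hρ : 0 < ρ)
    (hΔ : ∀ x ∈ ball (0 : E n) ρ, Δ U x = 0) {p : MvPolynomial (Fin n) ℝ}
    (hp : p.IsHomogeneous k) {W w : ℝ → ℝ} (hW : ∀ s, HasDerivAt W (w s) s) (hw : Continuous w)
    (hW0 : ∀ s, ρ ^ 2 ≤ s → W s = 0) (hw0 : ∀ s, ρ ^ 2 ≤ s → w s = 0) :
    2 * ∫ x, (fderiv ℝ U x x * ev p x - k * (U x * ev p x)) * w (‖x‖ ^ 2) =
      ∫ x, (U x * ev (lap p) x) * W (‖x‖ ^ 2) := by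
  have hW1 : ContDiff ℝ 1 W := by
    rw [contDiff_one_iff_deriv]
    refine ⟨fun s => (hW s).differentiableAt, ?_⟩
    rw [show deriv W = w from funext fun s => (hW s).deriv]
    exact hw
  have hN : ContDiff ℝ 1 fun y : E n => W (‖y‖ ^ 2) := hW1.comp (contDiff_norm_sq ℝ)
  have hU1 : ContDiff ℝ 1 U := hU.of_le (by norm_num)
  let A : Fin n → E n → ℝ := fun i x => pd i U x * ev p x - U x * ev (pderiv i p) x
  have hA : ∀ i, ContDiff ℝ 1 (A i) := fun i =>
    ((pd_contDiff i hU).mul (ev_contDiff p 1)).sub (hU1.mul (ev_contDiff _ 1))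
  have hF : ∀ i, ContDiff ℝ 1 fun x => A i x * W (‖x‖ ^ 2) := fun i => (hA i).mul hN
  have h0 : ∀ i, ∫ x, pd i (fun x => A i x * W (‖x‖ ^ 2)) x = 0 := fun i =>
    int_fderiv (hF i) (supp_weight hρ hW0 _) _
  have hi : ∀ i, Integrable (pd i fun x => A i x * W (‖x‖ ^ 2)) := fun i =>
    (((hF i).continuous_fderiv one_ne_zero).clm_apply
      continuous_const).integrable_of_hasCompactSupport
      ((supp_weight hρ hW0 _).fderiv_apply (𝕜 := ℝ) _)
  have hs : ∀ x, ∑ i, pd i (fun x => A i x * W (‖x‖ ^ 2)) x =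
      2 * ((fderiv ℝ U x x * ev p x - k * (U x * ev p x)) * w (‖x‖ ^ 2)) -
        (U x * ev (lap p) x) * W (‖x‖ ^ 2) := by
    intro x
    have d1 := hU1.differentiable one_ne_zero x
    have d2 : ∀ q : MvPolynomial (Fin n) ℝ, DifferentiableAt ℝ (ev q) x := fun q =>
      (ev_contDiff q 1).differentiable one_ne_zero x
    have e1 : ∀ i, pd i (fun x => A i x * W (‖x‖ ^ 2)) x =
        (pd i (pd i U) x * ev p x - U x * ev (pderiv i (pderiv i p)) x) * W (‖x‖ ^ 2) +
          2 * w (‖x‖ ^ 2) * (x i * pd i U x * ev p x - U x * (x i * ev (pderiv i p) x)) := by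
      intro i
      have d3 := (pd_contDiff i hU).differentiable one_ne_zero x
      rw [pd_mul i ((hA i).differentiable one_ne_zero x) (hN.differentiable one_ne_zero x),
        pd_weight i hW]
      simp only [A]
      rw [pd_sub i (d3.fun_mul (d2 p)) (d1.fun_mul (d2 _)), pd_mul i d3 (d2 p),
        pd_mul i d1 (d2 _), pd_ev, pd_ev]
      ring
    have e2 : ev (lap p) x = ∑ i, ev (pderiv i (pderiv i p)) x := by simp [ev, lap]
    have e3 : Δ U x * W (‖x‖ ^ 2) = 0 := by
      by_cases hx : x ∈ ball (0 : E n) ρ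
      · rw [hΔ x hx, zero_mul]
      · rw [mem_ball_zero_iff, not_lt] at hx
        rw [hW0 _ (by gcongr), mul_zero]
    simp only [e1, Finset.sum_add_distrib, ← Finset.sum_mul, ← Finset.mul_sum,
      Finset.sum_sub_distrib, euler hp]
    rw [← lap_eq_pd hU, ← e2, ← fderiv_self_eq]
    linear_combination (ev p x) * e3
  have c1 : Continuous fun x : E n => fderiv ℝ U x x :=
    (hU1.continuous_fderiv one_ne_zero).clm_apply continuous_id
  have cU := hU.continuous
  have cp := ev_cont p
  have cl := ev_cont (lap p)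
  have cW := hW1.continuous
  have i1 : Integrable fun x : E n =>
      (fderiv ℝ U x x * ev p x - k * (U x * ev p x)) * w (‖x‖ ^ 2) :=
    Continuous.integrable_of_hasCompactSupport (by fun_prop) (supp_weight hρ hw0 _)
  have i2 : Integrable fun x : E n => (U x * ev (lap p) x) * W (‖x‖ ^ 2) :=
    Continuous.integrable_of_hasCompactSupport (by fun_prop) (supp_weight hρ hW0 _)
  have h1 : ∫ x, ∑ i, pd i (fun x => A i x * W (‖x‖ ^ 2)) x = 0 := by
    rw [integral_finsetSum _ fun i _ => hi i]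
    simp [h0]
  simp only [hs] at h1
  rw [integral_sub (i1.const_mul 2) i2, integral_const_mul] at h1
  linarith

end Pool.Agent.P.MP_a2f83a_an.Sd
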