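import Pool.Agent.P.MP_a2f83a_an.SdLimit
import Pool.Agent.P.MP_a2f83a_an.Meas

set_option autoImplicit false

namespace Pool.Agent.P.MP_a2f83a_an.Sd

open MeasureTheory Metric Set Filter Topology MvPolynomial InnerProductSpace Laplacian

/-- all coordinates but the first -/
noncomputable def tl {m : ℕ} (x : E (m + 1)) : E m := WithLp.toLp 2 fun j => x j.succ

/-- a vector with a new first coordinate -/
noncomputable def cs {m : ℕ} (t : ℝ) (y : E m) : E (m + 1) :=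
  WithLp.toLp 2 (Fin.cons t fun j => y j)

theorem tl_norm {m : ℕ} (x : E (m + 1)) : ‖x‖ ^ 2 = x 0 ^ 2 + ‖tl x‖ ^ 2 := by
  simp [EuclideanSpace.norm_sq_eq, Fin.sum_univ_succ, tl]

theorem tl_sub {m : ℕ} (x y : E (m + 1)) : tl (x - y) = tl x - tl y := by
  ext j; simp [tl]

theorem tl_cs {m : ℕ} (t : ℝ) (y : E m) : tl (cs t y) = y := by
  ext j; simp [tl, cs]

theorem cs_zero {m : ℕ} (t : ℝ) (y : E m) : cs t y 0 = t := by simp [cs]

theorem tl_lip {m : ℕ} : LipschitzWith 1 (tl : E (m + 1) → E m) := by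
  refine LipschitzWith.of_dist_le_mul fun x y => ?_
  rw [dist_eq_norm, dist_eq_norm, ← tl_sub, NNReal.coe_one, one_mul,
    ← sq_le_sq₀ (norm_nonneg _) (norm_nonneg _), tl_norm (x - y)]
  linarith [sq_nonneg ((x - y) 0)]

theorem cs_cont {m : ℕ} : Continuous fun z : ℝ × E m => cs z.1 z.2 := by
  refine (PiLp.continuous_toLp 2 _).comp (continuous_pi fun i => ?_)
  refine Fin.cases ?_ (fun j => ?_) i
  · simpa using continuous_fst
  · simp only [Fin.cons_succ]; fun_prop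

theorem sphere_finite (m : ℕ) : μH[m] (sphere (0 : E (m + 1)) 1) < ⊤ := by
  have h1 : sphere (0 : E (m + 1)) 1 ⊆ tl '' Eq0 m := fun y hy =>
    ⟨cs 0 y, ⟨cs_zero 0 y, by
      rw [← sq_eq_sq₀ (norm_nonneg _) zero_le_one, tl_norm, tl_cs, cs_zero,
        mem_sphere_zero_iff_norm.1 hy]; norm_num⟩, tl_cs 0 y⟩
  refine (measure_mono h1).trans_lt ((tl_lip.hausdorffMeasure_image_le (Nat.cast_nonneg m)
    _).trans_lt ?_)
  simpa using Eq0_finite m

theorem small_graph {m : ℕ} {r : ℝ} (hr : 0 < r) (hr1 : r ≤ 1 / 2) {H : E (m + 2) → ℝ}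
    (h0 : ∀ x, |H x| ≤ r ^ 2 / 4) (h1 : ∀ x y, |H x - H y| ≤ r ^ 2 / 4 * ‖x - y‖)
    (Z : Set (E (m + 2))) (hZ : Z = {x | ‖x‖ = 1 / 2 ∧ x 0 - (1 / 2 - r ^ 2) + H x = 0}) :
    Nonempty (Z ≃ₜ sphere (0 : E (m + 1)) 1) ∧ ∃ Φ : E (m + 1) → E (m + 2),
      Z = Φ '' sphere 0 1 ∧ LipschitzOnWith (4 * r).toNNReal Φ (sphere 0 1) := by
  have cH : Continuous H := (LipschitzWith.of_dist_le' (K := r ^ 2 / 4) fun x y => by
    rw [dist_eq_norm, dist_eq_norm]; exact h1 x y).continuous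
  have hr2 : r ^ 2 ≤ r / 2 := by nlinarith
  have hρ : ∀ x ∈ Z, r / 2 ≤ ‖tl x‖ ∧ ‖tl x‖ ≤ 2 * r ∧ |x 0| ≤ 1 / 2 := by
    intro x hx
    rw [hZ] at hx
    obtain ⟨a1, a2⟩ := hx
    have a3 := tl_norm x
    have a4 := abs_le.1 (h0 x)
    rw [a1] at a3
    refine ⟨?_, ?_, abs_le.2 ⟨by nlinarith, by nlinarith⟩⟩
    · rw [← sq_le_sq₀ (by positivity) (norm_nonneg _)]; nlinarith
    · rw [← sq_le_sq₀ (norm_nonneg _) (by positivity)]; nlinarith
  set π : E (m + 2) → E (m + 1) := fun x => ‖tl x‖⁻¹ • tl x with hπ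
  have hpos : ∀ x ∈ Z, 0 < ‖tl x‖ := fun x hx => lt_of_lt_of_le (half_pos hr) (hρ x hx).1
  have hπ1 : ∀ x ∈ Z, ‖π x‖ = 1 := fun x hx => by
    simp only [hπ, norm_smul, norm_inv, norm_norm, inv_mul_cancel₀ (hpos x hx).ne']
  have hπ2 : ∀ x ∈ Z, tl x = ‖tl x‖ • π x := fun x hx => by
    simp only [hπ, smul_smul, mul_inv_cancel₀ (hpos x hx).ne', one_smul]
  have hanti : ∀ x ∈ Z, ∀ z ∈ Z, ‖x - z‖ ≤ 4 * r * ‖π x - π z‖ := by
    intro x hx z hz
    obtain ⟨b1, b2, b3⟩ := hρ x hx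
    obtain ⟨c1, c2, c3⟩ := hρ z hz
    have e1 := hπ1 z hz
    have e2 : tl x - tl z = ‖tl x‖ • (π x - π z) + (‖tl x‖ - ‖tl z‖) • π z := by
      rw [smul_sub, sub_smul, ← hπ2 x hx, ← hπ2 z hz]; abel
    rw [hZ] at hx hz
    have d1 : |x 0 - z 0| ≤ r ^ 2 / 4 * ‖x - z‖ := by
      rw [show x 0 - z 0 = -(H x - H z) by linarith [hx.2, hz.2], abs_neg]
      exact h1 x z
    have d2 : |‖tl x‖ - ‖tl z‖| * r ≤ |x 0 - z 0| := by
      have a3 := tl_norm x
      have a4 := tl_norm z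
      rw [hx.1] at a3
      rw [hz.1] at a4
      calc _ ≤ |‖tl x‖ - ‖tl z‖| * |‖tl x‖ + ‖tl z‖| := by
            gcongr
            rw [abs_of_nonneg (by positivity)]; linarith
        _ = |x 0 - z 0| * |x 0 + z 0| := by
            rw [← abs_mul, ← abs_mul, ← abs_neg]
            congr 1
            linarith
        _ ≤ |x 0 - z 0| * 1 := by
            gcongr
            linarith [abs_add_le (x 0) (z 0)]
        _ = _ := mul_one _
    have d3 : |‖tl x‖ - ‖tl z‖| ≤ r / 4 * ‖x - z‖ := by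
      refine le_of_mul_le_mul_right ?_ hr
      nlinarith
    have d4 : ‖tl x - tl z‖ ≤ 2 * r * ‖π x - π z‖ + r / 4 * ‖x - z‖ := by
      rw [e2]
      refine norm_add_le_of_le ?_ ?_
      · rw [norm_smul, norm_norm]; gcongr
      · rwa [norm_smul, e1, mul_one]
    have d5 : ‖x - z‖ ≤ |x 0 - z 0| + ‖tl x - tl z‖ := by
      rw [← sq_le_sq₀ (norm_nonneg _) (by positivity), tl_norm, tl_sub, add_sq, sq_abs,
        PiLp.sub_apply]
      nlinarith [mul_nonneg (abs_nonneg (x 0 - z 0)) (norm_nonneg (tl x - tl z))]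
    nlinarith [norm_nonneg (x - z)]
  have hsurj : ∀ y ∈ sphere (0 : E (m + 1)) 1, ∃ x ∈ Z, π x = y := by
    intro y hy
    rw [mem_sphere_zero_iff_norm] at hy
    set g : ℝ → E (m + 2) := fun t => cs t (√(1 / 4 - t ^ 2) • y) with hg
    have cg : Continuous g := cs_cont.comp (f := fun t : ℝ => (t, √(1 / 4 - t ^ 2) • y))
      (by fun_prop)
    obtain ⟨t, ht, ht0⟩ := intermediate_value_Icc (a := 1 / 2 - r ^ 2 - r ^ 2 / 4)
      (b := 1 / 2 - r ^ 2 + r ^ 2 / 4) (f := fun t => t - (1 / 2 - r ^ 2) + H (g t))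
      (by nlinarith) (Continuous.continuousOn (by fun_prop))
      (show (0 : ℝ) ∈ Icc _ _ from ⟨by linarith [(abs_le.1 (h0 (g (1 / 2 - r ^ 2 - r ^ 2 / 4)))).2],
        by linarith [(abs_le.1 (h0 (g (1 / 2 - r ^ 2 + r ^ 2 / 4)))).1]⟩)
    have a1 : 0 < 1 / 4 - t ^ 2 := by nlinarith [ht.1, ht.2, pow_pos hr 2]
    have a2 := Real.sqrt_pos.2 a1
    have a3 : ‖√(1 / 4 - t ^ 2) • y‖ = √(1 / 4 - t ^ 2) := by
      rw [norm_smul, hy, mul_one, Real.norm_of_nonneg a2.le]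
    refine ⟨g t, ?_, ?_⟩
    · rw [hZ]
      refine ⟨?_, by simpa only [hg, cs_zero] using ht0⟩
      rw [← sq_eq_sq₀ (norm_nonneg _) (by norm_num), tl_norm, tl_cs, cs_zero, a3,
        Real.sq_sqrt a1.le]
      ring
    · simp only [hπ, hg, tl_cs, a3, smul_smul, inv_mul_cancel₀ a2.ne', one_smul]
  have hinj : InjOn π Z := fun x hx z hz h => by
    have := hanti x hx z hz
    rwa [h, sub_self, norm_zero, mul_zero, norm_le_zero_iff, sub_eq_zero] at this
  constructor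
  · have hc : IsCompact Z := by
      refine (isCompact_sphere (0 : E (m + 2)) (1 / 2)).of_isClosed_subset ?_ fun x hx => ?_
      · rw [hZ]
        exact (isClosed_eq continuous_norm continuous_const).inter
          (isClosed_eq (by fun_prop) continuous_const)
      · rw [hZ] at hx
        exact mem_sphere_zero_iff_norm.2 hx.1
    have := isCompact_iff_compactSpace.1 hc
    let f : Z → sphere (0 : E (m + 1)) 1 := fun x => ⟨π x, mem_sphere_zero_iff_norm.2 (hπ1 x x.2)⟩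
    have hf : Function.Bijective f :=
      ⟨fun x z h => Subtype.ext (hinj x.2 z.2 (congrArg Subtype.val h)), fun y => by
        obtain ⟨x, hx, e⟩ := hsurj y y.2
        exact ⟨⟨x, hx⟩, Subtype.ext e⟩⟩
    have ct : Continuous fun x : Z => tl (x : E (m + 2)) :=
      tl_lip.continuous.comp continuous_subtype_val
    exact ⟨Continuous.homeoOfEquivCompactToT2 (f := Equiv.ofBijective f hf)
      (((ct.norm.inv₀ fun x => (hpos x x.2).ne').smul ct).subtype_mk _)⟩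
  · choose! Φ a1 a2 using hsurj
    refine ⟨Φ, Subset.antisymm (fun x hx => ?_) ?_, LipschitzOnWith.of_dist_le' fun y hy w hw => ?_⟩
    · have h := mem_sphere_zero_iff_norm.2 (hπ1 x hx)
      exact ⟨π x, h, hinj (a1 _ h) hx (a2 _ h)⟩
    · rintro _ ⟨y, hy, rfl⟩
      exact a1 y hy
    · have := hanti _ (a1 y hy) _ (a1 w hw)
      rwa [a2 y hy, a2 w hw, ← dist_eq_norm, ← dist_eq_norm] at this

theorem fixed_sphere {m : ℕ} (hm : 1 ≤ m) {ε : ENNReal} (hε : 0 < ε) :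
    ∃ Z : Set (E (m + 2)), Nonempty (Z ≃ₜ sphere (0 : E (m + 1)) 1) ∧ μH[m] Z < ε ∧
      ediam Z < ε ∧ ∀ N : ℕ, ∃ u : E (m + 2) → ℝ, HarmonicOnNhd u (ball 0 1) ∧
        (∃ x ∈ ball (0 : E (m + 2)) 1, u x ≠ 0) ∧ (∀ k < N, iteratedFDeriv ℝ k u 0 = 0) ∧
        {x | ‖x‖ = 1 / 2 ∧ u x = 0} = Z := by
  set A := μH[m] (sphere (0 : E (m + 1)) 1) + ediam (sphere (0 : E (m + 1)) 1) with hA
  have hfin : A ≠ ⊤ := ENNReal.add_ne_top.2 ⟨(sphere_finite m).ne,
    (isCompact_sphere _ _).isBounded.ediam_ne_top⟩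
  obtain ⟨s, hs, hs'⟩ := ENNReal.exists_nnreal_pos_mul_lt hfin hε.ne'
  set r : ℝ := min (s : ℝ) 1 / 4 with hr
  have hs0 : (0 : ℝ) < s := hs
  have hr0 : 0 < r := div_pos (lt_min hs0 one_pos) four_pos
  have hr1 : 4 * r ≤ 1 := by linarith [min_le_right (s : ℝ) 1]
  have hrs : ((4 * r).toNNReal : ENNReal) ≤ s := by
    rw [ENNReal.coe_le_coe, Real.toNNReal_le_iff_le_coe]
    linarith [min_le_left (s : ℝ) 1]
  have hr1' : ((4 * r).toNNReal : ENNReal) ≤ 1 := by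
    rw [ENNReal.coe_le_one_iff, Real.toNNReal_le_one]
    exact hr1
  have hv : ∀ x : E (m + 2), ev (X 0 - C (1 / 2 - r ^ 2)) x = x 0 - (1 / 2 - r ^ 2) :=
    fun x => by simp [ev]
  have hn : ∀ t : ℝ, ‖(EuclideanSpace.single 0 t : E (m + 2))‖ = |t| := fun t => by simp
  have hp := pow_pos hr0 2
  have hq : r ^ 2 ≤ 1 / 16 := by nlinarith
  obtain ⟨H, a1, -, a3, a4⟩ := dense_orders (m := m + 1) (by omega) 1
    (v := ev (X 0 - C (1 / 2 - r ^ 2))) (fun x _ => harmonicAt_ev _ (by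
      have := lap_low (isHomogeneous_X ℝ (0 : Fin (m + 2))) one_lt_two
      simpa [lap] using this) x)
    ⟨⟨EuclideanSpace.single 0 (1 / 2), by rw [hn]; norm_num, by rw [hv]; simpa using hp⟩,
      EuclideanSpace.single 0 (-(1 / 2)), by rw [hn]; norm_num, by
        rw [hv, PiLp.single_apply, if_pos rfl]; linarith⟩
    (ε := r ^ 2 / 4) (by positivity)
  have b0 : ∀ x, |H x| ≤ r ^ 2 / 4 := fun x => by
    have := a3 0 zero_le_one x
    rwa [norm_iteratedFDeriv_zero] at this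
  obtain ⟨c1, Φ, c2, c3⟩ := small_graph hr0 (by linarith) b0 (fun x y =>
    convex_univ.norm_image_sub_le_of_norm_fderiv_le (𝕜 := ℝ)
      (fun z _ => a1.differentiable two_ne_zero z) (fun z _ => by
        have := a3 (0 + 1) le_rfl z
        rwa [← norm_iteratedFDeriv_fderiv, norm_iteratedFDeriv_zero] at this)
      (mem_univ y) (mem_univ x)) _ rfl
  refine ⟨_, c1, ?_, ?_, fun N => ?_⟩
  · rw [c2]
    refine (c3.hausdorffMeasure_image_le (Nat.cast_nonneg m)).trans_lt (lt_of_le_of_lt ?_ hs')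
    rw [ENNReal.rpow_natCast]
    gcongr
    · exact (pow_le_of_le_one zero_le hr1' (by omega)).trans hrs
    · exact le_self_add
  · rw [c2]
    refine lt_of_le_of_lt (ediam_image_le_iff.2 fun x hx y hy => (c3 hx hy).trans ?_) hs'
    gcongr
    exact (edist_le_ediam_of_mem hx hy).trans le_add_self
  · obtain ⟨u, d1, d2, d3⟩ := a4 N
    refine ⟨u, d1, ⟨EuclideanSpace.single 0 (-(1 / 2)), by
      rw [mem_ball_zero_iff, hn]; norm_num, fun h => ?_⟩, d2, ?_⟩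
    · have := d3 _ ((hn (-(1 / 2))).trans (by norm_num))
      rw [h, sign_zero, eq_comm, sign_eq_zero_iff, hv, PiLp.single_apply,
        if_pos rfl] at this
      linarith [(abs_le.1 (b0 (EuclideanSpace.single 0 (-(1 / 2))))).2]
    · ext x
      refine and_congr_right fun hx => ?_
      rw [← sign_eq_zero_iff, d3 x hx, sign_eq_zero_iff, hv]

end Pool.Agent.P.MP_a2f83a_an.Sd
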