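import Pool.Agent.P.MP_a2f83a_an.Poly
import Pool.Agent.P.MP_a2f83a_an.OneD

set_option autoImplicit false

namespace Pool.Agent.P.MP_a2f83a_an

open Polynomial InnerProductSpace

/-- coefficients of the zonal harmonic of degree `k` in dimension `m + 2` -/
noncomputable def cc (m k : ℕ) : ℕ → ℝ
  | 0 => 1
  | j + 1 => -(cc m k j * (((k - 2 * j : ℕ) : ℝ) * (((k - 2 * j : ℕ) : ℝ) - 1))) /
      (2 * ((j + 1 : ℕ) : ℝ) * (2 * ((k - 2 * (j + 1) : ℕ) : ℝ) + 2 * ((j + 1 : ℕ) : ℝ) + m))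

lemma cc_rec (m k j : ℕ) :
    cc m k (j + 1) *
        (2 * ((j + 1 : ℕ) : ℝ) * (2 * ((k - 2 * (j + 1) : ℕ) : ℝ) + 2 * ((j + 1 : ℕ) : ℝ) + m)) +
      cc m k j * (((k - 2 * j : ℕ) : ℝ) * (((k - 2 * j : ℕ) : ℝ) - 1)) = 0 := by
  have h : (2 * ((j + 1 : ℕ) : ℝ) *
      (2 * ((k - 2 * (j + 1) : ℕ) : ℝ) + 2 * ((j + 1 : ℕ) : ℝ) + m)) ≠ 0 := by
    positivity
  rw [cc, div_mul_cancel₀ _ h]
  ring

lemma telescope {V : Type*} [AddCommGroup V] [Module ℝ V] (c α β : ℕ → ℝ) (w : ℕ → V)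
    (hβ : β 0 = 0) (hrec : ∀ j, c (j + 1) * β (j + 1) + c j * α j = 0) (J : ℕ) :
    ∑ j ∈ Finset.range (J + 1), c j • (α j • w (j + 1) + β j • w j) = (c J * α J) • w (J + 1) := by
  induction J with
  | zero => simp [hβ, mul_smul]
  | succ J ih =>
    rw [Finset.sum_range_succ, ih, smul_add, smul_smul, smul_smul, add_left_comm, ← add_smul,
      add_comm (c J * α J), hrec, zero_smul, add_zero]

lemma alpha_last (k : ℕ) :
    (((k - 2 * (k / 2) : ℕ) : ℝ) * (((k - 2 * (k / 2) : ℕ) : ℝ) - 1)) = 0 := by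
  have : k - 2 * (k / 2) = 0 ∨ k - 2 * (k / 2) = 1 := by omega
  rcases this with h | h <;> simp [h]

/-- the zonal harmonic polynomial -/
noncomputable def PP (m k : ℕ) : MvPolynomial (Fin (m + 2)) ℝ :=
  ∑ j ∈ Finset.range (k / 2 + 1), cc m k j • (TT m ^ (k - 2 * j) * QQ m ^ j)

/-- its trace on the sphere -/
noncomputable def GG (m k : ℕ) : ℝ[X] :=
  ∑ j ∈ Finset.range (k / 2 + 1), cc m k j • (X : ℝ[X]) ^ (k - 2 * j)

lemma lap_sum_smul {n : ℕ} (s : Finset ℕ) (c : ℕ → ℝ) (p : ℕ → MvPolynomial (Fin n) ℝ) :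
    lap (∑ j ∈ s, c j • p j) = ∑ j ∈ s, c j • lap (p j) := by
  unfold lap
  simp only [map_sum, Derivation.map_smul, Finset.smul_sum]
  rw [Finset.sum_comm]

lemma lap_PP (m k : ℕ) : lap (PP m k) = 0 := by
  unfold PP
  rw [lap_sum_smul]
  have h := telescope (cc m k) (fun j => ((k - 2 * j : ℕ) : ℝ) * (((k - 2 * j : ℕ) : ℝ) - 1))
    (fun j => 2 * (j : ℝ) * (2 * ((k - 2 * j : ℕ) : ℝ) + 2 * (j : ℝ) + m))
    (fun j => 4 * (TT m ^ (k - 2 * j) * QQ m ^ (j - 1))) (by simp) (cc_rec m k) (k / 2)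
  simp only [alpha_last, mul_zero, zero_smul] at h
  rw [← h]
  refine Finset.sum_congr rfl fun j _ => ?_
  congr 1
  rw [lap_TQ, show k - 2 * j - 2 = k - 2 * (j + 1) by omega, Nat.add_sub_cancel,
    MvPolynomial.smul_eq_C_mul, MvPolynomial.smul_eq_C_mul]
  simp only [map_mul, map_add, map_sub, map_natCast, map_one, C2]
  ring

/-- the Gegenbauer differential operator -/
noncomputable def DD (m : ℕ) : ℝ[X] →ₗ[ℝ] ℝ[X] :=
  (LinearMap.mulLeft ℝ (1 - X ^ 2 : ℝ[X])) ∘ₗ derivative ∘ₗ derivative -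
    (LinearMap.mulLeft ℝ (C ((m : ℝ) + 1) * X : ℝ[X])) ∘ₗ derivative

lemma DD_apply (m : ℕ) (g : ℝ[X]) :
    DD m g = (1 - X ^ 2) * derivative (derivative g) - C ((m : ℝ) + 1) * X * derivative g := rfl

lemma DD_pow (m b : ℕ) :
    DD m (X ^ b) = ((b : ℝ) * ((b : ℝ) - 1)) • X ^ (b - 2) - ((b : ℝ) * (b + m)) • X ^ b := by
  rw [DD_apply, smul_eq_C_mul, smul_eq_C_mul]
  simp only [derivative_X_pow, derivative_mul, derivative_natCast, map_mul, map_add,
    map_sub, map_natCast, map_one, zero_mul, zero_add]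
  have e1 := pow_aux1 (X : ℝ[X]) b
  have e2 := pow_aux2 (X : ℝ[X]) b
  have e3 := pow_aux3 (R := ℝ[X]) b
  rw [show b - 2 = b - 1 - 1 by omega]
  linear_combination (X ^ (b - 1 - 1)) * e3 - X * e2 - ((b : ℝ[X]) + m) * e1

lemma DD_GG (m k : ℕ) : DD m (GG m k) = -((k : ℝ) * (k + m)) • GG m k := by
  have h := telescope (cc m k) (fun j => ((k - 2 * j : ℕ) : ℝ) * (((k - 2 * j : ℕ) : ℝ) - 1))
    (fun j => 2 * (j : ℝ) * (2 * ((k - 2 * j : ℕ) : ℝ) + 2 * (j : ℝ) + m))
    (fun j => (X : ℝ[X]) ^ (k - 2 * j)) (by simp) (cc_rec m k) (k / 2)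
  simp only [alpha_last, mul_zero, zero_smul] at h
  rw [neg_smul, ← add_eq_zero_iff_eq_neg, ← h]
  unfold GG
  rw [map_sum, Finset.smul_sum, ← Finset.sum_add_distrib]
  refine Finset.sum_congr rfl fun j hj => ?_
  have hj' : 2 * j ≤ k := by have := Finset.mem_range.mp hj; omega
  rw [map_smul, smul_comm, ← smul_add, DD_pow, show k - 2 * j - 2 = k - 2 * (j + 1) by omega]
  congr 1
  rw [sub_add, ← sub_smul, sub_eq_add_neg, ← neg_smul]
  congr 2
  rw [Nat.cast_sub hj']
  push_cast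
  ring

lemma II_DD (m : ℕ) (g h : ℝ[X]) : II m (DD m g * h) = II m (g * DD m h) := by
  rw [← sub_eq_zero, ← map_sub, ← II_parts m (derivative g * h - g * derivative h)]
  refine congrArg (II m) ?_
  simp only [DD_apply, derivative_sub, derivative_mul]
  ring

lemma GG_orth (m k : ℕ) : ∀ l < k, II m (GG m k * X ^ l) = 0 := by
  intro l
  induction l using Nat.strong_induction_on with
  | _ l ih =>
    intro hl
    have h := II_DD m (GG m k) (X ^ l)
    rw [DD_GG, DD_pow, smul_mul_assoc, mul_sub, mul_smul_comm, mul_smul_comm, map_sub, map_smul,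
      map_smul, map_smul] at h
    simp only [smul_eq_mul] at h
    have h0 : ((l : ℝ) * ((l : ℝ) - 1)) * II m (GG m k * X ^ (l - 2)) = 0 := by
      rcases Nat.lt_or_ge l 2 with h2 | h2
      · interval_cases l <;> simp
      · rw [ih (l - 2) (by omega) (by omega), mul_zero]
    have hkl : (l : ℝ) < k := by exact_mod_cast hl
    have hne : (k : ℝ) * (k + m) - l * (l + m) ≠ 0 := by
      have hm : (0 : ℝ) ≤ m := Nat.cast_nonneg m
      have hl0 : (0 : ℝ) ≤ l := Nat.cast_nonneg l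
      nlinarith
    apply (mul_eq_zero.mp (_ : ((k : ℝ) * (k + m) - l * (l + m)) * II m (GG m k * X ^ l) = 0)
      ).resolve_left hne
    linarith

lemma GG_sub_degree (m k : ℕ) : (GG m k - X ^ k).degree < (k : WithBot ℕ) := by
  unfold GG
  rw [Finset.sum_range_succ']
  simp only [cc, mul_zero, Nat.sub_zero, one_smul, add_sub_cancel_right]
  refine lt_of_le_of_lt (degree_sum_le _ _) ?_
  refine (Finset.sup_lt_iff (WithBot.bot_lt_coe k)).mpr ?_
  intro j hj
  refine lt_of_le_of_lt (degree_smul_le _ _) ?_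
  rw [degree_X_pow]
  have := Finset.mem_range.mp hj
  exact Nat.cast_lt.mpr (by omega : k - 2 * (j + 1) < k)

/-- `f` is the trace on the sphere of radius one half of a zonal harmonic polynomial vanishing to
order `N` at the origin -/
def Good (m N : ℕ) (f : ℝ[X]) : Prop :=
  ∃ p : MvPolynomial (Fin (m + 2)) ℝ, lap p = 0 ∧ (∀ l < N, iteratedFDeriv ℝ l (ev p) 0 = 0) ∧
    ∀ x : EuclideanSpace ℝ (Fin (m + 2)), ‖x‖ = 1 / 2 → ev p x = f.eval (2 * x 0)

lemma good_zero (m N : ℕ) : Good m N 0 := by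
  refine ⟨0, by simp [lap], fun l _ => ?_, fun x _ => by simp [ev]⟩
  have : ev (0 : MvPolynomial (Fin (m + 2)) ℝ) = 0 := by funext x; simp [ev]
  rw [this]; simp

lemma Good.add_smul {m N : ℕ} {f g : ℝ[X]} (hf : Good m N f) (hg : Good m N g) (c : ℝ) :
    Good m N (f + c • g) := by
  obtain ⟨p, hp1, hp2, hp3⟩ := hf
  obtain ⟨q, hq1, hq2, hq3⟩ := hg
  have he : ev (p + c • q) = ev p + c • ev q := by
    funext x; simp [ev]
  refine ⟨p + c • q, ?_, fun l hl => ?_, fun x hx => ?_⟩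
  · have : lap (p + c • q) = lap p + c • lap q := by
      unfold lap
      simp only [map_add, Derivation.map_smul, Finset.smul_sum, Finset.sum_add_distrib]
    rw [this, hp1, hq1]; simp
  · have hc : ContDiffAt ℝ l (c • ev q) 0 := ((ev_contDiff q l).const_smul c).contDiffAt
    rw [he, iteratedFDeriv_add_apply (ev_contDiff p l).contDiffAt hc,
      iteratedFDeriv_const_smul_apply (ev_contDiff q l).contDiffAt, hp2 l hl, hq2 l hl]
    simp
  · rw [he]
    simp [hp3 x hx, hq3 x hx]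

lemma ev_TT (m : ℕ) (x : EuclideanSpace ℝ (Fin (m + 2))) : ev (TT m) x = 2 * x 0 := by
  simp [ev, TT]

lemma ev_QQ (m : ℕ) (x : EuclideanSpace ℝ (Fin (m + 2))) : ev (QQ m) x = 4 * ‖x‖ ^ 2 := by
  simp [ev, QQ, EuclideanSpace.norm_sq_eq]

lemma ev_PP (m k : ℕ) (x : EuclideanSpace ℝ (Fin (m + 2))) :
    ev (PP m k) x = ∑ j ∈ Finset.range (k / 2 + 1),
      cc m k j * ((2 * x 0) ^ (k - 2 * j) * (4 * ‖x‖ ^ 2) ^ j) := by
  rw [← ev_TT, ← ev_QQ]
  simp [ev, PP]

lemma good_GG (m N k : ℕ) (h : N ≤ k) : Good m N (GG m k) := by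
  refine ⟨PP m k, lap_PP m k, fun l hl => ?_, fun x hx => ?_⟩
  · apply iteratedFDeriv_eq_zero_of_homog _ k l (ev_contDiff _ _) _ (by omega)
    intro x
    rw [ev_PP, ev_PP, Finset.mul_sum]
    refine Finset.sum_congr rfl fun j hj => ?_
    have hj' : 2 * j ≤ k := by have := Finset.mem_range.mp hj; omega
    have h2 : (2 : ℝ) ^ k = 2 ^ (k - 2 * j) * (2 ^ 2) ^ j := by
      rw [← pow_mul, ← pow_add]; congr 1; omega
    rw [h2, norm_smul]
    simp only [PiLp.smul_apply, smul_eq_mul, Real.norm_ofNat, mul_pow]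
    ring
  · rw [ev_PP, hx]
    simp only [GG, eval_finsetSum, eval_smul, eval_pow, eval_X, smul_eq_mul]
    refine Finset.sum_congr rfl fun j _ => ?_
    norm_num

theorem good_of_orth (m N : ℕ) : ∀ (d : ℕ) (f : ℝ[X]), f.degree < d →
    (∀ l < N, II m (f * X ^ l) = 0) → Good m N f := by
  intro d
  induction d with
  | zero =>
    intro f hf _
    have : f = 0 := by simpa using hf
    rw [this]; exact good_zero m N
  | succ d ih =>
    intro f hf ho
    rcases Nat.lt_or_ge d N with h | h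
    · have h1 : II m (f * f) = 0 :=
        II_mul_of_degree_lt m N f f (lt_of_lt_of_le hf (by exact_mod_cast h)) ho
      have : f = 0 := by
        by_contra hne
        exact (II_sq_pos m f hne).ne' h1
      rw [this]; exact good_zero m N
    · have h1 : (f - f.coeff d • GG m d).degree < d := by
        have e : f - f.coeff d • GG m d =
            (f - f.coeff d • X ^ d) - f.coeff d • (GG m d - X ^ d) := by
          rw [smul_sub]; abel
        rw [e]
        refine lt_of_le_of_lt (degree_sub_le _ _) (max_lt ?_ ?_)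
        · rw [degree_lt_iff_coeff_zero]
          intro i hi
          rcases eq_or_lt_of_le hi with h2 | h2
          · subst h2; simp
          · have : f.coeff i = 0 := coeff_eq_zero_of_degree_lt
              (lt_of_lt_of_le hf (by exact_mod_cast h2))
            simp [this, coeff_X_pow, h2.ne']
        · exact lt_of_le_of_lt (degree_smul_le _ _) (GG_sub_degree m d)
      have h2 := ih _ h1 (fun l hl => by
        rw [sub_mul, smul_mul_assoc, map_sub, map_smul, ho l hl, GG_orth m d l (by omega)]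
        simp)
      have := h2.add_smul (good_GG m N d h) (f.coeff d)
      simpa using this

end Pool.Agent.P.MP_a2f83a_an
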